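import Pool.Agent.Helper50.CE.StepS

/-! # Collapsed version: exponential decay of the volume of superlevel sets of `± u`

`z = y^(n-1)`, Sobolev–Poincaré constant `S / z^2`, layers of thickness `c / y^n`, volumes relative
to `z^n`. -/

namespace Pool.Agent.Helper50.CK

open scoped ContDiff Topology NNReal
open Pool.Agent.Helper49.Ric Pool.Agent.Helper73.HB Pool.Agent.Helper50.CF
  Pool.Agent.Helper50.CE MeasureTheory Filter

noncomputable section

variable {n : ℕ} {S V : ℝ} {u : (Fin n → ℝ) → ℝ} {x : Fin n → ℝ}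

theorem exists_decayK (n : ℕ) (S : ℝ) : ∃ c : ℝ, 1 ≤ c ∧
    ∀ {u : (Fin n → ℝ) → ℝ} {x : Fin n → ℝ} {V y z : ℝ}, 0 < y → z = y ^ (n - 1) →
      CoreE n (S / z ^ 2) V u x →
      ∀ {σ : ℝ}, σ = 1 ∨ σ = -1 → ∀ k : ℝ,
        ev u (GB u x (7 / 4) ∩ {p | k ≤ σ * u p}) ≤ (z / c) ^ n →
        ev u (GB u x (7 / 4) ∩ {p | k ≤ σ * u p}) ≤ 1 / 2 * ev u (GB u x 2) →
        ∀ j : ℕ, ev u (GB u x (3 / 2) ∩ {p | k + j * (c / y ^ n) ≤ σ * u p}) ≤
          z ^ n * (1 / 2) ^ j := by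
  obtain ⟨C, hC, hst⟩ := exists_stepS n
  set P : ℝ := max S 1 * C with hP
  have hP1 : 1 ≤ P := by
    have h1 : (1 : ℝ) ≤ max S 1 := le_max_right _ _
    calc (1 : ℝ) = 1 * 1 := by ring
      _ ≤ max S 1 * C := mul_le_mul h1 hC zero_le_one (by linarith)
  have hSP : S * C ≤ P := mul_le_mul_of_nonneg_right (le_max_left _ _) (by linarith)
  have h2n : (1 : ℝ) ≤ 2 ^ (n + 1) := one_le_pow₀ (by norm_num)
  set c : ℝ := 64 * P * 2 ^ (n + 1) with hc
  have hPn : 1 ≤ P * 2 ^ (n + 1) := by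
    calc (1 : ℝ) = 1 * 1 := by ring
      _ ≤ P * 2 ^ (n + 1) := mul_le_mul hP1 h2n zero_le_one (by linarith)
  have hc1 : 1 ≤ c := by
    have : c = 64 * (P * 2 ^ (n + 1)) := by rw [hc]; ring
    linarith
  have hc0 : 0 < c := by linarith
  refine ⟨c, hc1, ?_⟩
  intro u x V y z hy hz hu σ hσ k h1 h2 j
  have hz0 : 0 < z := by rw [hz]; positivity
  have hn3 : 3 ≤ n := hu.flat.hn
  have hn : (3 : ℝ) ≤ n := by exact_mod_cast hn3
  have hn0 : (0 : ℝ) < n := by linarith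
  have hyn : 0 < y ^ n := by positivity
  set h : ℝ := c / y ^ n with hh
  have hh0 : 0 < h := by positivity
  set e₀ : ℝ := z / c with he₀
  have he0 : 0 < e₀ := by positivity
  set α : ℝ := ((n : ℝ) - 2) / n with hα
  have hα0 : 0 < α := div_pos (by linarith) hn0
  have hα1 : α ≤ 1 := by
    rw [hα, div_le_one hn0]
    linarith
  have hαs : (2 / n : ℝ) + α = 1 := by
    rw [hα]
    field_simp
    ring
  set r : ℕ → ℝ := fun j => 3 / 2 + 1 / 4 * (1 / 2) ^ j with hr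
  have hpow0 : ∀ j : ℕ, (0 : ℝ) < (1 / 2) ^ j := fun j => by positivity
  have hpow1 : ∀ j : ℕ, ((1 : ℝ) / 2) ^ j ≤ 1 := fun j => pow_le_one₀ (by norm_num) (by norm_num)
  have hr0 : r 0 = 7 / 4 := by
    simp only [hr, pow_zero]
    norm_num
  have hrs : ∀ j, r j - r (j + 1) = 1 / 8 * (1 / 2) ^ j := fun j => by
    simp only [hr, pow_succ]
    ring
  have hr1 : ∀ j, 3 / 2 ≤ r j := fun j => by
    simp only [hr]
    linarith [hpow0 j]
  have hr2 : ∀ j, r j ≤ 7 / 4 := fun j => by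
    simp only [hr]
    linarith [hpow1 j]
  set v : ℕ → ℝ := fun j => ev u (GB u x (r j) ∩ {p | k + j * h ≤ σ * u p}) with hv
  have hv0 : ∀ j, 0 ≤ v j := fun j => ev_nonneg _ _
  have hsub : ∀ j : ℕ, GB u x (r j) ∩ {p | k + j * h ≤ σ * u p} ⊆
      GB u x (7 / 4) ∩ {p | k ≤ σ * u p} := by
    intro j p hp
    refine ⟨GB_mono (hr2 j) hp.1, ?_⟩
    have h3 : k + j * h ≤ σ * u p := hp.2
    have h4 : (0 : ℝ) ≤ j * h := mul_nonneg (Nat.cast_nonneg j) hh0.le
    show k ≤ σ * u p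
    linarith
  have hvle : ∀ j, v j ≤ ev u (GB u x (7 / 4) ∩ {p | k ≤ σ * u p}) := fun j =>
    hu.ev_mono (hsub j) (Set.inter_subset_left.trans (GB_mono (by norm_num)))
  have hq : (0 : ℝ) < (1 / 2) ^ n := hpow0 n
  have hq1 : ((1 : ℝ) / 2) ^ n ≤ 1 := hpow1 n
  -- the two constants
  have hkey : (2 : ℝ) ^ (n + 1) * (1 / 2) ^ n = 2 := by
    rw [pow_succ, one_div, inv_pow]
    field_simp
  have hPc : P / c = 1 / 128 * (1 / 2) ^ n := by
    have hP0 : P ≠ 0 := by linarith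
    rw [hc]
    field_simp
    linarith [hkey]
  have hyz : y ^ n = y * z := by
    rw [hz, ← pow_succ']
    congr 1
    omega
  have c1 : P / z ^ 2 * (h⁻¹ ^ 2 * h ^ (2 / n : ℝ)) ≤ 1 / 2 * (1 / 2) ^ n := by
    have a0 : h ^ (2 / n : ℝ) = c ^ (2 / n : ℝ) / y ^ 2 := by
      rw [hh, Real.div_rpow hc0.le hyn.le]
      congr 1
      rw [← Real.rpow_natCast, ← Real.rpow_mul hy.le]
      have : (n : ℝ) * (2 / n) = (2 : ℕ) := by
        push_cast
        field_simp
      rw [this, Real.rpow_natCast]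
    have a1 : c ^ (2 / n : ℝ) ≤ c := by
      have : c ^ (2 / n : ℝ) ≤ c ^ (1 : ℝ) :=
        Real.rpow_le_rpow_of_exponent_le hc1 (by
          rw [div_le_one hn0]
          linarith)
      rwa [Real.rpow_one] at this
    have a2 : P / z ^ 2 * (h⁻¹ ^ 2 * h ^ (2 / n : ℝ)) = P / c ^ 2 * c ^ (2 / n : ℝ) := by
      rw [a0, hh, hyz]
      field_simp
    rw [a2]
    calc P / c ^ 2 * c ^ (2 / n : ℝ) ≤ P / c ^ 2 * c :=
          mul_le_mul_of_nonneg_left a1 (by positivity)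
      _ = P / c := by field_simp
      _ = 1 / 128 * (1 / 2) ^ n := hPc
      _ ≤ 1 / 2 * (1 / 2) ^ n := by
          have : (0 : ℝ) < (1 / 2) ^ n := by positivity
          linarith
  have c2 : P / z ^ 2 * (64 * (e₀ ^ n) ^ (2 / n : ℝ)) ≤ 1 / 2 * (1 / 2) ^ n := by
    have a1 : (e₀ ^ n) ^ (2 / n : ℝ) = e₀ ^ 2 := by
      rw [← Real.rpow_natCast, ← Real.rpow_mul he0.le]
      have : (n : ℝ) * (2 / n) = (2 : ℕ) := by
        push_cast
        field_simp
      rw [this, Real.rpow_natCast]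
    rw [a1]
    calc P / z ^ 2 * (64 * e₀ ^ 2) = 64 * (P / c) * (1 / c) := by
          rw [he₀]
          field_simp
      _ ≤ 64 * (P / c) * 1 := by
          refine mul_le_mul_of_nonneg_left ?_ (by positivity)
          rw [div_le_one hc0]
          exact hc1
      _ = 1 / 2 * (1 / 2) ^ n := by
          rw [hPc]
          ring
  have hSP' : S / z ^ 2 * C ≤ P / z ^ 2 := by
    rw [div_mul_eq_mul_div]
    exact div_le_div_of_nonneg_right hSP (by positivity)
  have claim : ∀ j, v j ≤ e₀ ^ n * ((1 / 2) ^ n) ^ j := by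
    intro j
    induction j with
    | zero =>
      have : v 0 = ev u (GB u x (7 / 4) ∩ {p | k ≤ σ * u p}) := by
        simp only [hv, hr0, Nat.cast_zero, zero_mul, add_zero]
      rw [this, pow_zero, mul_one]
      exact h1
    | succ j ih =>
      have st := hst hu hσ (r (j + 1)) (r j) (k + j * h) h (by linarith [hr1 (j + 1)])
        (by have := hrs j; have := hpow0 j; linarith) (by linarith [hr2 j]) hh0
        ((hvle j).trans h2)
      have e1 : k + j * h + h = k + ((j + 1 : ℕ) : ℝ) * h := by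
        push_cast
        ring
      rw [e1, hrs j] at st
      have hvα : 0 ≤ v j ^ α := Real.rpow_nonneg (hv0 j) _
      have e2 : v j = v j ^ (2 / n : ℝ) * v j ^ α := by
        rcases (hv0 j).eq_or_lt with h3 | h3
        · rw [← h3, Real.zero_rpow hα0.ne', mul_zero]
        · rw [← Real.rpow_add h3, hαs, Real.rpow_one]
      have e3 : v j ^ (2 / n : ℝ) ≤ (e₀ ^ n) ^ (2 / n : ℝ) * (1 / 4) ^ j := by
        have a1 : v j ^ (2 / n : ℝ) ≤ (e₀ ^ n * ((1 / 2) ^ n) ^ j) ^ (2 / n : ℝ) :=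
          Real.rpow_le_rpow (hv0 j) ih (by positivity)
        refine a1.trans (le_of_eq ?_)
        rw [Real.mul_rpow (by positivity) (by positivity)]
        congr 1
        rw [← pow_mul, ← Real.rpow_natCast, ← Real.rpow_mul (by norm_num)]
        have a2 : ((n * j : ℕ) : ℝ) * (2 / n) = ((2 * j : ℕ) : ℝ) := by
          push_cast
          field_simp
        rw [a2, Real.rpow_natCast, pow_mul]
        norm_num
      have e4 : (1 / (1 / 8 * (1 / 2) ^ j)) ^ 2 * v j ≤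
          64 * (e₀ ^ n) ^ (2 / n : ℝ) * v j ^ α := by
        have a1 : (1 / (1 / 8 * (1 / 2) ^ j)) ^ 2 = 64 * (4 : ℝ) ^ j := by
          have : (4 : ℝ) ^ j = 2 ^ j * 2 ^ j := by
            rw [← mul_pow]
            norm_num
          rw [this, one_div (2 : ℝ), inv_pow]
          field_simp
          norm_num
        have a2 : (4 : ℝ) ^ j * (1 / 4) ^ j = 1 := by
          rw [← mul_pow]
          norm_num
        calc (1 / (1 / 8 * (1 / 2) ^ j)) ^ 2 * v j
            = 64 * (4 : ℝ) ^ j * (v j ^ (2 / n : ℝ) * v j ^ α) := by rw [a1, ← e2]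
          _ ≤ 64 * (4 : ℝ) ^ j * (((e₀ ^ n) ^ (2 / n : ℝ) * (1 / 4) ^ j) * v j ^ α) :=
              mul_le_mul_of_nonneg_left (mul_le_mul_of_nonneg_right e3 hvα) (by positivity)
          _ = 64 * (e₀ ^ n) ^ (2 / n : ℝ) * v j ^ α * ((4 : ℝ) ^ j * (1 / 4) ^ j) := by ring
          _ = _ := by rw [a2, mul_one]
      have e5 : v (j + 1) ^ α ≤ ((1 / 2) ^ n * v j) ^ α := by
        have b1 : v (j + 1) ^ α ≤ P / z ^ 2 * (h⁻¹ ^ 2 * h ^ (2 / n : ℝ) * v j ^ α +
            64 * (e₀ ^ n) ^ (2 / n : ℝ) * v j ^ α) := by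
          refine st.trans ?_
          have b0 : 0 ≤ h⁻¹ ^ 2 * h ^ (2 / n : ℝ) * v j ^ α := by positivity
          have b0' : 0 ≤ (1 / (1 / 8 * (1 / 2) ^ j)) ^ 2 * v j :=
            mul_nonneg (sq_nonneg _) (hv0 j)
          calc _ ≤ P / z ^ 2 * (h⁻¹ ^ 2 * h ^ (2 / n : ℝ) * v j ^ α +
                (1 / (1 / 8 * (1 / 2) ^ j)) ^ 2 * v j) :=
                mul_le_mul_of_nonneg_right hSP' (add_nonneg b0 b0')
            _ ≤ _ := mul_le_mul_of_nonneg_left (by linarith) (by positivity)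
        have b2 : P / z ^ 2 * (h⁻¹ ^ 2 * h ^ (2 / n : ℝ) * v j ^ α +
            64 * (e₀ ^ n) ^ (2 / n : ℝ) * v j ^ α) ≤ (1 / 2) ^ n * v j ^ α := by
          calc _ = (P / z ^ 2 * (h⁻¹ ^ 2 * h ^ (2 / n : ℝ)) +
                P / z ^ 2 * (64 * (e₀ ^ n) ^ (2 / n : ℝ))) *
                v j ^ α := by ring
            _ ≤ (1 / 2 * (1 / 2) ^ n + 1 / 2 * (1 / 2) ^ n) * v j ^ α :=
                mul_le_mul_of_nonneg_right (add_le_add c1 c2) hvα
            _ = _ := by ring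
        have b3 : ((1 : ℝ) / 2) ^ n ≤ ((1 / 2) ^ n) ^ α := by
          have := Real.rpow_le_rpow_of_exponent_ge hq hq1 hα1
          rwa [Real.rpow_one] at this
        calc v (j + 1) ^ α ≤ (1 / 2) ^ n * v j ^ α := b1.trans b2
          _ ≤ ((1 / 2) ^ n) ^ α * v j ^ α := mul_le_mul_of_nonneg_right b3 hvα
          _ = _ := (Real.mul_rpow hq.le (hv0 j)).symm
      have e6 : v (j + 1) ≤ (1 / 2) ^ n * v j :=
        (Real.rpow_le_rpow_iff (hv0 _) (mul_nonneg hq.le (hv0 j)) hα0).mp e5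
      calc v (j + 1) ≤ (1 / 2) ^ n * v j := e6
        _ ≤ (1 / 2) ^ n * (e₀ ^ n * ((1 / 2) ^ n) ^ j) := mul_le_mul_of_nonneg_left ih hq.le
        _ = _ := by
          rw [pow_succ]
          ring
  have fin1 : ev u (GB u x (3 / 2) ∩ {p | k + j * h ≤ σ * u p}) ≤ v j :=
    hu.ev_mono (Set.inter_subset_inter_left _ (GB_mono (hr1 j)))
      ((Set.inter_subset_left.trans (GB_mono (hr2 j))).trans (GB_mono (by norm_num)))
  have fin2 : ((1 : ℝ) / 2) ^ n ≤ 1 / 2 := by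
    have : ((1 : ℝ) / 2) ^ n ≤ (1 / 2) ^ 1 :=
      pow_le_pow_of_le_one (by norm_num) (by norm_num) (by omega)
    rwa [pow_one] at this
  have fin3 : e₀ ≤ z := by
    rw [he₀]
    exact div_le_self hz0.le hc1
  calc _ ≤ v j := fin1
    _ ≤ e₀ ^ n * ((1 / 2) ^ n) ^ j := claim j
    _ ≤ z ^ n * (1 / 2) ^ j := mul_le_mul (pow_le_pow_left₀ he0.le fin3 n)
        (pow_le_pow_left₀ hq.le fin2 j) (by positivity) (by positivity)

end

end Pool.Agent.Helper50.CK
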