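import Pool.Agent.Helper50.CE.LevelsE

/-! # Collapsed version: the range of `u` between the two small level sets

`z = y^(n-1)`, Sobolev–Poincaré constant `S / z^2`, `z^n ≤ ev u (GB 2)`, `ev u (GB 4) ≤ D z^n`. -/

namespace Pool.Agent.Helper50.CK

open scoped ContDiff Topology NNReal
open Pool.Agent.Helper49.Ric Pool.Agent.Helper73.HB Pool.Agent.Helper50.CF
  Pool.Agent.Helper50.CE MeasureTheory Filter

noncomputable section

variable {n : ℕ} {S V : ℝ} {u : (Fin n → ℝ) → ℝ} {x : Fin n → ℝ}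

namespace Lev

open Pool.Agent.Helper50.CE.Lev (ta ta_smooth ta_deriv dst_gt dst_lt pd_comp)

/-- the least integer level -/
theorem least (h : CoreE n S V u x) {e : ℝ} (he : 0 < e) (heV : e < ev u (GB u x 2)) {σ : ℝ}
    (hσ : σ = 1 ∨ σ = -1) : ∃ i : ℤ, ev u (GB u x 2 ∩ {p | (i : ℝ) ≤ σ * u p}) ≤ e ∧
      e < ev u (GB u x 2 ∩ {p | (i : ℝ) - 1 ≤ σ * u p}) := by
  obtain ⟨M, hM0, hM⟩ := h.bdd
  have h25 : GB u x 2 ⊆ GB u x 5 := GB_mono (by norm_num)
  have hM' : ∀ p ∈ GB u x 2, |σ * u p| ≤ M := by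
    intro p hp
    have h1 := hM p (h25 hp)
    rcases hσ with rfl | rfl
    · rwa [one_mul]
    · rwa [neg_one_mul, abs_neg]
  obtain ⟨N, hN⟩ := exists_nat_gt M
  have hex : ∃ i : ℤ, ev u (GB u x 2 ∩ {p | (i : ℝ) ≤ σ * u p}) ≤ e := by
    refine ⟨(N : ℤ), ?_⟩
    have hem : GB u x 2 ∩ {p | (((N : ℤ) : ℝ)) ≤ σ * u p} = ∅ := by
      ext p
      simp only [Set.mem_inter_iff, Set.mem_ofPred_eq, Set.mem_empty_iff_false, iff_false, not_and,
        not_le]
      intro hp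
      have h1 := (le_abs_self _).trans (hM' p hp)
      push_cast
      linarith
    rw [hem]
    unfold ev
    rw [Measure.restrict_empty, integral_zero_measure]
    exact he.le
  have hlow : ∃ b : ℤ, ∀ i : ℤ, ev u (GB u x 2 ∩ {p | (i : ℝ) ≤ σ * u p}) ≤ e → b ≤ i := by
    refine ⟨-(N : ℤ), fun i hi => ?_⟩
    by_contra hcon
    have h1 : i < -(N : ℤ) := not_le.mp hcon
    have h2 : (i : ℝ) < -(N : ℝ) := by exact_mod_cast h1
    have hall : GB u x 2 ∩ {p | (i : ℝ) ≤ σ * u p} = GB u x 2 := by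
      refine Set.inter_eq_left.mpr fun p hp => ?_
      have h3 := neg_le_of_abs_le (hM' p hp)
      show (i : ℝ) ≤ σ * u p
      linarith
    rw [hall] at hi
    linarith
  obtain ⟨i, hi, hmin⟩ := Int.exists_least_of_bdd hlow hex
  refine ⟨i, hi, ?_⟩
  by_contra hcon
  have h1 : ev u (GB u x 2 ∩ {p | ((i - 1 : ℤ) : ℝ) ≤ σ * u p}) ≤ e := by
    push_cast
    exact not_lt.mp hcon
  have := hmin _ h1
  omega

/-- the distance of two levels whose super- and sublevel sets are large -/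
theorem gap {c C V' : ℝ} (hc : ∀ t : ℝ, |deriv Real.smoothTransition t| ≤ c) (hc1 : 1 ≤ c)
    (hC1 : 1 ≤ C) (h : CoreE n S V u x) (hV' : ev u (GB u x 4) ≤ V')
    (hC : ∀ k h : ℝ, 0 < h → ∫ p in GB u x 4 ∩ {p | k ≤ (1 : ℝ) * u p ∧ (1 : ℝ) * u p ≤ k + h},
      gs u p * Real.exp ((n - 2) * u p) ≤ (C * h) ^ (2 / n : ℝ) *
        ev u (GB u x 4 ∩ {p | k ≤ (1 : ℝ) * u p ∧ (1 : ℝ) * u p ≤ k + h}) ^ ((n - 2) / n : ℝ))
    {e a b : ℝ} (he : 0 < e) (hab : 0 < a - b)
    (h1 : e < ev u (GB u x 2 ∩ {p | a ≤ (1 : ℝ) * u p}))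
    (h2 : e < ev u (GB u x 2 ∩ {p | -b ≤ (-1 : ℝ) * u p})) :
    e ^ ((n - 2) / n : ℝ) / 4 ≤
      S * ((c / (a - b)) ^ 2 * ((C * (a - b)) ^ (2 / n : ℝ) * V' ^ ((n - 2) / n : ℝ))) := by
  have hn : (3 : ℝ) ≤ n := by exact_mod_cast h.flat.hn
  have hn0 : (0 : ℝ) < n := by linarith
  have hS := h.hS
  have hV := h.hV
  set L : ℝ := a - b with hL
  have hL0 : 0 < L := by linarith
  have hu := h.flat.smooth
  have h25 : GB u x 2 ⊆ GB u x 5 := GB_mono (by norm_num)
  have h45 : GB u x 4 ⊆ GB u x 5 := GB_mono (by norm_num)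
  -- the test function
  obtain ⟨ρ, hρ0, hρ⟩ := h.sub_B
  obtain ⟨c2, -, hcut⟩ := Pool.Agent.Helper50.CF.exists_cutoff
  obtain ⟨φ, hφ, hφc, -, -, -, hφe, -⟩ := hcut n ρ (ρ + 1) hρ0 (by linarith)
  have hφ1 : ∀ p ∈ GB u x 5, φ p = 1 := fun p hp => hφe p (B_subset_Bc ρ (hρ hp))
  have hτs : ContDiff ℝ ∞ (fun q => ta b L (u q)) := (ta_smooth b L).comp hu
  set f : (Fin n → ℝ) → ℝ := fun p => φ p * ta b L (u p) with hf
  have hfs : ContDiff ℝ ∞ f := hφ.mul hτs
  have hfc : HasCompactSupport f := hφc.mul_right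
  obtain ⟨D, hD⟩ := lip_of hfs hfc
  obtain ⟨c₀, hsp⟩ := h.sp f D hD hfc
  -- the gradient
  have hpd : ∀ p ∈ GB u x 4, ∀ i, pd i f p =
      (deriv Real.smoothTransition ((u p - b) / L) * (1 / L)) * pd i u p := by
    intro p hp i
    have hev : f =ᶠ[𝓝 p] fun q => ta b L (u q) := by
      filter_upwards [(isOpen_GB hu x 5).mem_nhds (h45 hp)] with q hq
      rw [hf]
      simp only
      rw [hφ1 q hq, one_mul]
    rw [pd_congr hev i]
    exact pd_comp (ta_deriv b L (u p)) (hu.differentiable (by simp) p) i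
  set E : Set (Fin n → ℝ) := {p | b ≤ (1 : ℝ) * u p ∧ (1 : ℝ) * u p ≤ b + L} with hE
  have hEm : MeasurableSet E := (meas_lev hu 1 b).inter (meas_lev2 hu 1 (b + L))
  have hgs : ∀ p ∈ GB u x 4, gs f p ≤
      E.indicator (fun p => (c / L) ^ 2 * gs u p) p := by
    intro p hp
    have e1 : gs f p = (deriv Real.smoothTransition ((u p - b) / L) * (1 / L)) ^ 2 * gs u p := by
      unfold gs
      rw [Finset.mul_sum]
      refine Finset.sum_congr rfl fun i _ => ?_
      rw [hpd p hp i]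
      ring
    by_cases hpE : p ∈ E
    · rw [Set.indicator_of_mem hpE, e1]
      refine mul_le_mul_of_nonneg_right ?_ (gs_nonneg u p)
      have h3 := pow_le_pow_left₀ (abs_nonneg _) (hc ((u p - b) / L)) 2
      calc (deriv Real.smoothTransition ((u p - b) / L) * (1 / L)) ^ 2
          = |deriv Real.smoothTransition ((u p - b) / L)| ^ 2 * (1 / L) ^ 2 := by
            rw [mul_pow, sq_abs]
        _ ≤ c ^ 2 * (1 / L) ^ 2 := mul_le_mul_of_nonneg_right h3 (sq_nonneg _)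
        _ = (c / L) ^ 2 := by ring
    · rw [Set.indicator_of_notMem hpE, e1]
      have h3 : u p < b ∨ b + L < u p := by
        by_contra hcon
        rw [not_or, not_lt, not_lt] at hcon
        refine hpE ⟨?_, ?_⟩
        · rw [one_mul]; exact hcon.1
        · rw [one_mul]; exact hcon.2
      rcases h3 with h3 | h3
      · rw [dst_lt (div_neg_of_neg_of_pos (by linarith) hL0)]
        simp
      · rw [dst_gt (by rw [lt_div_iff₀ hL0]; linarith)]
        simp
  -- the right side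
  have hFi : IntegrableOn (fun p => gs f p * Real.exp ((n - 2) * u p)) (GB u x 4) :=
    h.int ((cont_gs hfs).mul (h.cont_e _)) h45
  have hGi : IntegrableOn (fun p => (c / L) ^ 2 * (gs u p * Real.exp ((n - 2) * u p))) (GB u x 4) :=
    h.int (continuous_const.mul ((cont_gs hu).mul (h.cont_e _))) h45
  have hR1 : ∫ p in GB u x 4, gs f p * Real.exp ((n - 2) * u p) ≤
      (c / L) ^ 2 * ∫ p in GB u x 4 ∩ E, gs u p * Real.exp ((n - 2) * u p) := by
    rw [← integral_const_mul, ← setIntegral_indicator hEm]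
    refine setIntegral_mono_on hFi (hGi.indicator hEm) (meas_GB hu x 4) fun p hp => ?_
    have h3 := mul_le_mul_of_nonneg_right (hgs p hp) (Real.exp_pos ((n - 2) * u p)).le
    refine h3.trans (le_of_eq ?_)
    by_cases hpE : p ∈ E
    · rw [Set.indicator_of_mem hpE, Set.indicator_of_mem hpE]
      ring
    · rw [Set.indicator_of_notMem hpE, Set.indicator_of_notMem hpE, zero_mul]
  have hevE : ev u (GB u x 4 ∩ E) ≤ V' := (h.ev_mono Set.inter_subset_left h45).trans hV'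
  have hα : (0 : ℝ) ≤ (n - 2) / n := div_nonneg (by linarith) hn0.le
  have hR2 : ∫ p in GB u x 4 ∩ E, gs u p * Real.exp ((n - 2) * u p) ≤
      (C * L) ^ (2 / n : ℝ) * V' ^ ((n - 2) / n : ℝ) := by
    refine (hC b L hL0).trans ?_
    refine mul_le_mul_of_nonneg_left ?_ (Real.rpow_nonneg (by positivity) _)
    exact Real.rpow_le_rpow (ev_nonneg _ _) hevE hα
  -- the left side
  have hq : (0 : ℝ) ≤ 2 * n / (n - 2) := div_nonneg (by linarith) (by linarith)
  have hcont : Continuous fun p => |f p - c₀| ^ (2 * n / (n - 2) : ℝ) * Real.exp (n * u p) :=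
    (((hfs.continuous.sub continuous_const).abs).rpow_const fun _ => Or.inr hq).mul (h.cont_e n)
  have hlow : ∀ A : Set (Fin n → ℝ), MeasurableSet A → A ⊆ GB u x 2 → e < ev u A →
      (∀ p ∈ A, 1 / 2 ≤ |f p - c₀|) →
      (1 / 2 : ℝ) ^ (2 * n / (n - 2) : ℝ) * e ≤
        ∫ p in GB u x 2, |f p - c₀| ^ (2 * n / (n - 2) : ℝ) * Real.exp (n * u p) := by
    intro A hAm hA heA hA2
    calc (1 / 2 : ℝ) ^ (2 * n / (n - 2) : ℝ) * e
        ≤ (1 / 2 : ℝ) ^ (2 * n / (n - 2) : ℝ) * ev u A :=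
          mul_le_mul_of_nonneg_left heA.le (by positivity)
      _ = ∫ p in A, (1 / 2 : ℝ) ^ (2 * n / (n - 2) : ℝ) * Real.exp (n * u p) := by
          unfold ev
          rw [integral_const_mul]
      _ ≤ ∫ p in A, |f p - c₀| ^ (2 * n / (n - 2) : ℝ) * Real.exp (n * u p) := by
          refine setIntegral_mono_on (h.int (continuous_const.mul (h.cont_e n)) (hA.trans h25))
            (h.int hcont (hA.trans h25)) hAm fun p hp => ?_
          exact mul_le_mul_of_nonneg_right (Real.rpow_le_rpow (by norm_num) (hA2 p hp) hq)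
            (Real.exp_pos _).le
      _ ≤ _ := setIntegral_mono_set (h.int hcont h25)
          (Eventually.of_forall fun p => by positivity) (Eventually.of_forall hA)
  have hLHS : (1 / 2 : ℝ) ^ (2 * n / (n - 2) : ℝ) * e ≤
      ∫ p in GB u x 2, |f p - c₀| ^ (2 * n / (n - 2) : ℝ) * Real.exp (n * u p) := by
    rcases le_total (1 / 2) |c₀| with h3 | h3
    · refine hlow _ ((meas_GB hu x 2).inter (meas_lev hu (-1) (-b))) Set.inter_subset_left h2 ?_
      rintro p ⟨hp1, hp2⟩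
      have hp3 : u p ≤ b := by
        have : -b ≤ (-1 : ℝ) * u p := hp2
        linarith
      have h4 : f p = 0 := by
        rw [hf]
        simp only
        unfold ta
        rw [Real.smoothTransition.zero_of_nonpos
          (div_nonpos_of_nonpos_of_nonneg (by linarith) hL0.le), mul_zero]
      rw [h4, zero_sub, abs_neg]
      exact h3
    · refine hlow _ ((meas_GB hu x 2).inter (meas_lev hu 1 a)) Set.inter_subset_left h1 ?_
      rintro p ⟨hp1, hp2⟩
      have hp3 : a ≤ u p := by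
        have : a ≤ (1 : ℝ) * u p := hp2
        linarith
      have h4 : f p = 1 := by
        rw [hf]
        simp only
        unfold ta
        rw [hφ1 p (h25 hp1), one_mul]
        refine Real.smoothTransition.one_of_one_le ?_
        rw [le_div_iff₀ hL0]
        linarith
      rw [h4]
      have h5 := le_abs_self (1 - c₀)
      have h6 := (le_abs_self c₀).trans h3
      linarith
  have hL2 : e ^ ((n - 2) / n : ℝ) / 4 ≤
      (∫ p in GB u x 2, |f p - c₀| ^ (2 * n / (n - 2) : ℝ) * Real.exp (n * u p)) ^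
        ((n - 2) / n : ℝ) := by
    refine le_trans (le_of_eq ?_) (Real.rpow_le_rpow (by positivity) hLHS hα)
    rw [Real.mul_rpow (by positivity) he.le, ← Real.rpow_mul (by norm_num)]
    have h3 : (2 * n / (n - 2) : ℝ) * ((n - 2) / n) = 2 := by
      have : (n : ℝ) - 2 ≠ 0 := by linarith
      field_simp
    rw [h3, Real.rpow_two]
    ring
  refine hL2.trans (hsp.trans ?_)
  refine mul_le_mul_of_nonneg_left ?_ (by linarith)
  exact hR1.trans (mul_le_mul_of_nonneg_left hR2 (sq_nonneg _))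

end Lev

theorem exists_levelsK (n : ℕ) (S D Y c₀ : ℝ) (hc₀ : 1 ≤ c₀) : ∃ T : ℝ, 1 ≤ T ∧
    ∀ {u : (Fin n → ℝ) → ℝ} {x : Fin n → ℝ} {V y z : ℝ}, 0 < y → y ^ n ≤ Y → z = y ^ (n - 1) →
      CoreE n (S / z ^ 2) V u x → z ^ n ≤ ev u (GB u x 2) → ev u (GB u x 4) ≤ D * z ^ n →
      ∃ k₀ k₁ : ℝ, k₀ - k₁ ≤ T / y ^ n ∧
        ev u (GB u x 2 ∩ {p | k₀ ≤ (1 : ℝ) * u p}) ≤ 1 / 4 * (z / c₀) ^ n ∧
        ev u (GB u x 2 ∩ {p | -k₁ ≤ (-1 : ℝ) * u p}) ≤ 1 / 4 * (z / c₀) ^ n := by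
  obtain ⟨c, hc1, hc⟩ := exists_step
  obtain ⟨C, hC1, hC⟩ := exists_holderE n
  set α : ℝ := ((n : ℝ) - 2) / n with hα
  set e₁ : ℝ := 1 / 4 * (1 / c₀) ^ n with he₁
  have he₁0 : 0 < e₁ := by positivity
  set M : ℝ := 4 * |S| * c ^ 2 * C ^ (2 / n : ℝ) * |D| ^ α / e₁ ^ α with hM
  have hM0 : 0 ≤ M := by positivity
  refine ⟨M + 1 + 3 * |Y|, by linarith [abs_nonneg Y], ?_⟩
  intro u x V y z hy hyY hz h hlo hup
  have hz0 : 0 < z := by rw [hz]; positivity
  have hn3 : 3 ≤ n := h.flat.hn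
  have hn : (3 : ℝ) ≤ n := by exact_mod_cast hn3
  have hn0 : (0 : ℝ) < n := by linarith
  have hα0 : 0 < α := div_pos (by linarith) hn0
  have hyn : 0 < y ^ n := by positivity
  have hyz : y ^ n = y * z := by
    rw [hz, ← pow_succ']
    congr 1
    omega
  set e : ℝ := 1 / 4 * (z / c₀) ^ n with he
  have hee : e = e₁ * z ^ n := by
    rw [he, he₁, div_pow, one_div_pow]
    ring
  have he0 : 0 < e := by positivity
  have heV : e < ev u (GB u x 2) := by
    have h1 : (z / c₀) ^ n ≤ z ^ n :=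
      pow_le_pow_left₀ (by positivity) (div_le_self hz0.le hc₀) n
    have h2 : 0 < z ^ n := by positivity
    rw [he]
    linarith
  obtain ⟨i, hi1, hi2⟩ := Lev.least h he0 heV (Or.inl rfl : (1 : ℝ) = 1 ∨ (1 : ℝ) = -1)
  obtain ⟨j, hj1, hj2⟩ := Lev.least h he0 heV (Or.inr rfl : (-1 : ℝ) = 1 ∨ (-1 : ℝ) = -1)
  refine ⟨i, -j, ?_, hi1, by rw [neg_neg]; exact hj1⟩
  rw [le_div_iff₀ hyn]
  have hY : y ^ n ≤ |Y| := hyY.trans (le_abs_self Y)
  set L : ℝ := (i : ℝ) - 1 - (1 - j) with hL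
  have hLe : (i : ℝ) - -j = L + 2 := by rw [hL]; ring
  rw [hLe, add_mul]
  have h2y : 2 * y ^ n ≤ 3 * |Y| := by linarith [abs_nonneg Y]
  suffices hs : L * y ^ n ≤ M + 1 by linarith
  rcases le_or_gt (L * y ^ n) 1 with h1 | h1
  · linarith
  have hL0 : 0 < L := by
    by_contra hcon
    have := mul_nonpos_of_nonpos_of_nonneg (not_lt.mp hcon) hyn.le
    linarith
  have h2 := Lev.gap hc hc1 hC1 h hup
    (fun k l hl => hC h (Or.inl rfl) (GB_mono (by norm_num)) (meas_GB h.flat.smooth x 4) k l hl)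
    he0 hL0 hi2 (by rw [neg_sub]; exact hj2)
  have hD0 : 0 ≤ D := by
    by_contra hcon
    have h3 : D * z ^ n < 0 := mul_neg_of_neg_of_pos (not_le.mp hcon) (by positivity)
    have h4 := ev_nonneg u (GB u x 4)
    linarith
  have hS0 : 0 ≤ S := by
    have h3 := h.hS
    rw [le_div_iff₀ (by positivity)] at h3
    have : 0 < z ^ 2 := by positivity
    linarith
  have e1 : (z ^ n) ^ α = z ^ (n - 2) := by
    rw [← Real.rpow_natCast, ← Real.rpow_mul hz0.le]
    have h3 : (n : ℝ) * α = ((n - 2 : ℕ) : ℝ) := by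
      rw [hα, Nat.cast_sub (by omega)]
      push_cast
      field_simp
    rw [h3, Real.rpow_natCast]
  have e2 : e ^ α = e₁ ^ α * z ^ (n - 2) := by
    rw [hee, Real.mul_rpow he₁0.le (by positivity), e1]
  have e3 : (D * z ^ n) ^ α = D ^ α * z ^ (n - 2) := by
    rw [Real.mul_rpow hD0 (by positivity), e1]
  have h3 : e ^ α / 4 ≤ S / z ^ 2 * ((c / L) ^ 2 * ((C * L) ^ (2 / n : ℝ) * (D * z ^ n) ^ α)) := h2
  rw [e2, e3, Real.mul_rpow (by linarith) hL0.le] at h3
  have hzn : 0 < z ^ (n - 2) := by positivity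
  have he₁α : 0 < e₁ ^ α := Real.rpow_pos_of_pos he₁0 _
  -- `L² ≤ (M / z²) L^(2/n)`
  have h4 : L ^ 2 * z ^ 2 ≤ M * L ^ (2 / n : ℝ) := by
    rw [hM, abs_of_nonneg hS0, abs_of_nonneg hD0]
    have h5 : S / z ^ 2 * ((c / L) ^ 2 * (C ^ (2 / n : ℝ) * L ^ (2 / n : ℝ) *
        (D ^ α * z ^ (n - 2)))) =
        (S * c ^ 2 * C ^ (2 / n : ℝ) * D ^ α * L ^ (2 / n : ℝ)) / (L ^ 2 * z ^ 2) *
          z ^ (n - 2) := by
      field_simp
    rw [h5] at h3
    have h6 : e₁ ^ α / 4 ≤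
        (S * c ^ 2 * C ^ (2 / n : ℝ) * D ^ α * L ^ (2 / n : ℝ)) / (L ^ 2 * z ^ 2) := by
      refine le_of_mul_le_mul_right ?_ hzn
      calc e₁ ^ α / 4 * z ^ (n - 2) = e₁ ^ α * z ^ (n - 2) / 4 := by ring
        _ ≤ _ := h3
    rw [le_div_iff₀ (by positivity)] at h6
    rw [div_mul_eq_mul_div, le_div_iff₀ he₁α]
    linarith
  set t : ℝ := L * y ^ n with ht
  have ht0 : 0 < t := by linarith
  have h5 : t ^ 2 ≤ M * t ^ (2 / n : ℝ) := by
    have h6 : (y ^ n) ^ (2 / n : ℝ) = y ^ 2 := by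
      rw [← Real.rpow_natCast, ← Real.rpow_mul hy.le]
      have : (n : ℝ) * (2 / n) = (2 : ℕ) := by
        push_cast
        field_simp
      rw [this, Real.rpow_natCast]
    have h7 : t ^ (2 / n : ℝ) = L ^ (2 / n : ℝ) * y ^ 2 := by
      rw [ht, Real.mul_rpow hL0.le hyn.le, h6]
    rw [h7, ht, hyz]
    calc (L * (y * z)) ^ 2 = L ^ 2 * z ^ 2 * y ^ 2 := by ring
      _ ≤ M * L ^ (2 / n : ℝ) * y ^ 2 := mul_le_mul_of_nonneg_right h4 (by positivity)
      _ = _ := by ring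
  have h6 : t ^ (2 / n : ℝ) ≤ t := by
    calc t ^ (2 / n : ℝ) ≤ t ^ (1 : ℝ) := by
          refine Real.rpow_le_rpow_of_exponent_le h1.le ?_
          rw [div_le_one hn0]
          linarith
      _ = t := Real.rpow_one t
  have h7 : t * t ≤ M * t := by
    calc t * t = t ^ 2 := by ring
      _ ≤ M * t ^ (2 / n : ℝ) := h5
      _ ≤ M * t := mul_le_mul_of_nonneg_left h6 hM0
  have h8 := le_of_mul_le_mul_right h7 ht0
  linarith

end

end Pool.Agent.Helper50.CK
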