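import Pool.Agent.Helper50.CK.Decay
import Pool.Agent.Helper50.CK.Levels

/-! # Collapsed version: the bound for `∫ |∇u|² e^{(n-2)u}` on `GB u x (3/2)` -/

namespace Pool.Agent.Helper50.CK

open scoped ContDiff Topology NNReal
open Pool.Agent.Helper49.Ric Pool.Agent.Helper73.HB Pool.Agent.Helper50.CF
  Pool.Agent.Helper50.CE MeasureTheory Filter

noncomputable section

variable {n : ℕ} {S V : ℝ} {u : (Fin n → ℝ) → ℝ} {x : Fin n → ℝ}

private theorem union_le (h : CoreE n S V u x) {F : (Fin n → ℝ) → ℝ} (hF : Continuous F)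
    (h0 : ∀ p, 0 ≤ F p) {X Y : Set (Fin n → ℝ)} (hX : X ⊆ GB u x 5) (hY : Y ⊆ GB u x 5)
    (mX : MeasurableSet X) (mY : MeasurableSet Y) :
    ∫ p in X ∪ Y, F p ≤ (∫ p in X, F p) + ∫ p in Y, F p := by
  have e : X ∪ Y = X ∪ (Y \ X) := Set.union_sdiff_self.symm
  rw [e, setIntegral_union Set.disjoint_sdiff_right (mY.diff mX) (h.int hF hX)
    (h.int hF (Set.sdiff_subset.trans hY))]
  have h1 : ∫ p in Y \ X, F p ≤ ∫ p in Y, F p :=
    setIntegral_mono_set (h.int hF hY) (Eventually.of_forall h0)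
      (Eventually.of_forall Set.sdiff_subset)
  linarith

private theorem cont_F (h : CoreE n S V u x) :
    Continuous (fun p => gs u p * Real.exp ((n - 2) * u p)) :=
  (cont_gs h.flat.smooth).mul (h.cont_e _)

private theorem F_nonneg (p : Fin n → ℝ) : 0 ≤ gs u p * Real.exp ((n - 2) * u p) :=
  mul_nonneg (gs_nonneg u p) (Real.exp_pos _).le

/-- powers -/
private theorem pow_y {y : ℝ} (hn : 3 ≤ n) (hy : 0 < y) : (y ^ n) ^ (2 / n : ℝ) = y ^ 2 := by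
  have hn0 : (0 : ℝ) < n := by exact_mod_cast (by omega : 0 < n)
  rw [← Real.rpow_natCast, ← Real.rpow_mul hy.le]
  have : (n : ℝ) * (2 / n) = (2 : ℕ) := by
    push_cast
    field_simp
  rw [this, Real.rpow_natCast]

private theorem pow_z {z : ℝ} (hn : 3 ≤ n) (hz : 0 < z) :
    (z ^ n) ^ (((n : ℝ) - 2) / n) = z ^ (n - 2) := by
  have hn0 : (0 : ℝ) < n := by exact_mod_cast (by omega : 0 < n)
  rw [← Real.rpow_natCast, ← Real.rpow_mul hz.le]
  have h3 : (n : ℝ) * (((n : ℝ) - 2) / n) = ((n - 2 : ℕ) : ℝ) := by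
    rw [Nat.cast_sub (by omega)]
    push_cast
    field_simp
  rw [h3, Real.rpow_natCast]

private theorem exists_half (n : ℕ) (S : ℝ) : ∃ c C : ℝ, 1 ≤ c ∧ 0 ≤ C ∧
    ∀ {u : (Fin n → ℝ) → ℝ} {x : Fin n → ℝ} {V y z : ℝ}, 0 < y → z = y ^ (n - 1) →
      CoreE n (S / z ^ 2) V u x →
      ∀ {σ : ℝ}, σ = 1 ∨ σ = -1 → ∀ k : ℝ,
        ev u (GB u x (7 / 4) ∩ {p | k ≤ σ * u p}) ≤ (z / c) ^ n →
        ev u (GB u x (7 / 4) ∩ {p | k ≤ σ * u p}) ≤ 1 / 2 * ev u (GB u x 2) →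
        ∫ p in GB u x (3 / 2) ∩ {p | k ≤ σ * u p}, gs u p * Real.exp ((n - 2) * u p) ≤
          C * (z ^ (n - 2) / y ^ 2) := by
  obtain ⟨c, hc1, hdec⟩ := exists_decayK n S
  obtain ⟨C1, hC1, hhol⟩ := exists_holderE n
  set q : ℝ := ((1 : ℝ) / 2) ^ (((n : ℝ) - 2) / n) with hq
  refine ⟨c, (C1 * c) ^ (2 / n : ℝ) * |1 / (1 - q)|, hc1, by positivity, ?_⟩
  intro u x V y z hy hz hD σ hσ k hv1 hv2
  have hz0 : 0 < z := by rw [hz]; positivity
  have hyn : 0 < y ^ n := by positivity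
  have hD' := hdec hy hz hD hσ k hv1 hv2
  set h : ℝ := c / y ^ n with hh
  have hh0 : 0 < h := by positivity
  have hC1h : 0 ≤ C1 * h := by positivity
  have hn : 3 ≤ n := hD.flat.hn
  have hn3 : (3 : ℝ) ≤ n := by exact_mod_cast hn
  have hα : 0 < ((n : ℝ) - 2) / n := by
    apply div_pos <;> linarith
  have hq0 : 0 ≤ q := by positivity
  have hq1 : q < 1 := Real.rpow_lt_one (by norm_num) (by norm_num) hα
  have hu := hD.flat.smooth
  have hcF := cont_F hD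
  have hA5 : GB u x (3 / 2) ⊆ GB u x 5 := GB_mono (by norm_num)
  have hmA := meas_GB hu x (3 / 2)
  have mlt : ∀ t : ℝ, MeasurableSet {p : Fin n → ℝ | σ * u p < t} := fun t =>
    (isOpen_lt (continuous_const.mul hu.continuous) continuous_const).measurableSet
  have hzn : 0 < z ^ (n - 2) := by positivity
  have key : ∀ J : ℕ, ∫ p in GB u x (3 / 2) ∩ ({p | k ≤ σ * u p} ∩ {p | σ * u p < k + J * h}),
      gs u p * Real.exp ((n - 2) * u p) ≤
        (C1 * h) ^ (2 / n : ℝ) * z ^ (n - 2) * ∑ j ∈ Finset.range J, q ^ j := by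
    intro J
    induction J with
    | zero =>
      have e : GB u x (3 / 2) ∩ ({p | k ≤ σ * u p} ∩ {p | σ * u p < k + ((0 : ℕ) : ℝ) * h}) =
          ∅ := by
        ext p
        simp only [Set.mem_inter_iff, Set.mem_ofPred_eq, Nat.cast_zero, zero_mul, add_zero,
          Set.mem_empty_iff_false, iff_false, not_and, not_lt]
        intro _ h1
        exact h1
      rw [e]
      simp
    | succ J ih =>
      have hsub : GB u x (3 / 2) ∩ ({p | k ≤ σ * u p} ∩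
            {p | σ * u p < k + ((J + 1 : ℕ) : ℝ) * h}) ⊆
          (GB u x (3 / 2) ∩ ({p | k ≤ σ * u p} ∩ {p | σ * u p < k + J * h})) ∪
            (GB u x (3 / 2) ∩ {p | k + J * h ≤ σ * u p ∧ σ * u p ≤ k + J * h + h}) := by
        rintro p ⟨h1, h2, h3⟩
        have h3' : σ * u p < k + ((J + 1 : ℕ) : ℝ) * h := h3
        push_cast at h3'
        by_cases h4 : σ * u p < k + J * h
        · exact Or.inl ⟨h1, h2, h4⟩
        · refine Or.inr ⟨h1, not_lt.mp h4, ?_⟩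
          linarith
      have m1 : MeasurableSet (GB u x (3 / 2) ∩ ({p | k ≤ σ * u p} ∩
          {p | σ * u p < k + J * h})) := hmA.inter ((meas_lev hu σ k).inter (mlt _))
      have m2 : MeasurableSet (GB u x (3 / 2) ∩
          {p | k + J * h ≤ σ * u p ∧ σ * u p ≤ k + J * h + h}) :=
        hmA.inter ((meas_lev hu σ _).inter (meas_lev2 hu σ _))
      have s1 : GB u x (3 / 2) ∩ ({p | k ≤ σ * u p} ∩
          {p | σ * u p < k + J * h}) ⊆ GB u x 5 := Set.inter_subset_left.trans hA5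
      have s2 : GB u x (3 / 2) ∩
          {p | k + J * h ≤ σ * u p ∧ σ * u p ≤ k + J * h + h} ⊆ GB u x 5 :=
        Set.inter_subset_left.trans hA5
      have a1 : ∫ p in GB u x (3 / 2) ∩ ({p | k ≤ σ * u p} ∩
            {p | σ * u p < k + ((J + 1 : ℕ) : ℝ) * h}), gs u p * Real.exp ((n - 2) * u p) ≤
          ∫ p in (GB u x (3 / 2) ∩ ({p | k ≤ σ * u p} ∩ {p | σ * u p < k + J * h})) ∪
            (GB u x (3 / 2) ∩ {p | k + J * h ≤ σ * u p ∧ σ * u p ≤ k + J * h + h}),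
            gs u p * Real.exp ((n - 2) * u p) :=
        setIntegral_mono_set (hD.int hcF (Set.union_subset s1 s2))
          (Eventually.of_forall F_nonneg) (Eventually.of_forall hsub)
      have a2 := union_le hD hcF F_nonneg s1 s2 m1 m2
      have a3 := hhol hD hσ hA5 hmA (k + J * h) h hh0
      have a4 : ev u (GB u x (3 / 2) ∩
          {p | k + J * h ≤ σ * u p ∧ σ * u p ≤ k + J * h + h}) ≤ z ^ n * (1 / 2) ^ J := by
        refine le_trans (hD.ev_mono ?_ ?_) (hD' J)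
        · exact Set.inter_subset_inter_right _ fun p hp => hp.1
        · exact Set.inter_subset_left.trans hA5
      have a5 : ev u (GB u x (3 / 2) ∩
          {p | k + J * h ≤ σ * u p ∧ σ * u p ≤ k + J * h + h}) ^ (((n : ℝ) - 2) / n) ≤
          z ^ (n - 2) * q ^ J := by
        refine (Real.rpow_le_rpow (ev_nonneg u _) a4 hα.le).trans (le_of_eq ?_)
        rw [Real.mul_rpow (by positivity) (by positivity), pow_z hn hz0]
        congr 1
        rw [hq, ← Real.rpow_natCast, ← Real.rpow_natCast, ← Real.rpow_mul (by norm_num),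
          ← Real.rpow_mul (by norm_num), mul_comm]
      have a6 := mul_le_mul_of_nonneg_left a5 (Real.rpow_nonneg hC1h (2 / n : ℝ))
      rw [Finset.sum_range_succ, mul_add]
      linarith
  obtain ⟨M, hM0, hM⟩ := hD.bdd
  obtain ⟨J, hJ⟩ := exists_nat_gt ((M - k) / h)
  have hall : GB u x (3 / 2) ∩ {p | k ≤ σ * u p} =
      GB u x (3 / 2) ∩ ({p | k ≤ σ * u p} ∩ {p | σ * u p < k + J * h}) := by
    ext p
    constructor
    · rintro ⟨h1, h2⟩
      refine ⟨h1, h2, ?_⟩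
      have h3 : σ * u p ≤ M := by
        have h4 := hM p (hA5 h1)
        have h5 := abs_le.mp h4
        rcases hσ with rfl | rfl <;> linarith
      have h6 : M - k < J * h := (div_lt_iff₀ hh0).mp hJ
      change σ * u p < k + J * h
      linarith
    · rintro ⟨h1, h2, _⟩
      exact ⟨h1, h2⟩
  have h1 := key J
  rw [← hall] at h1
  refine h1.trans ?_
  have h3 : ∑ j ∈ Finset.range J, q ^ j ≤ 1 / (1 - q) := by
    rw [geom_sum_eq hq1.ne]
    have h4 : (q ^ J - 1) / (q - 1) = (1 - q ^ J) / (1 - q) := by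
      rw [← neg_sub 1 (q ^ J), ← neg_sub 1 q, neg_div_neg_eq]
    rw [h4]
    have h5 : 0 ≤ q ^ J := pow_nonneg hq0 J
    have h6 : 0 < 1 - q := by linarith
    gcongr
    linarith
  have e1 : (C1 * h) ^ (2 / n : ℝ) = (C1 * c) ^ (2 / n : ℝ) / y ^ 2 := by
    rw [hh, ← mul_div_assoc, Real.div_rpow (by positivity) hyn.le, pow_y hn hy]
  rw [e1]
  calc (C1 * c) ^ (2 / n : ℝ) / y ^ 2 * z ^ (n - 2) * ∑ j ∈ Finset.range J, q ^ j
      ≤ (C1 * c) ^ (2 / n : ℝ) / y ^ 2 * z ^ (n - 2) * |1 / (1 - q)| :=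
        mul_le_mul_of_nonneg_left (h3.trans (le_abs_self _)) (by positivity)
    _ = _ := by ring

theorem exists_energyK (n : ℕ) (S D Y : ℝ) : ∃ C : ℝ, 1 ≤ C ∧
    ∀ {u : (Fin n → ℝ) → ℝ} {x : Fin n → ℝ} {V y z : ℝ}, 0 < y → y ^ n ≤ Y → z = y ^ (n - 1) →
      CoreE n (S / z ^ 2) V u x → z ^ n ≤ ev u (GB u x 2) → ev u (GB u x 4) ≤ D * z ^ n →
      ∫ p in GB u x (3 / 2), gs u p * Real.exp ((n - 2) * u p) ≤ C * (z ^ (n - 2) / y ^ 2) := by
  obtain ⟨c, C2, hc1, hC2, hhalf⟩ := exists_half n S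
  obtain ⟨T, hT1, hlev⟩ := exists_levelsK n S D Y c hc1
  obtain ⟨C1, hC1, hhol⟩ := exists_holderE n
  refine ⟨1 + 2 * C2 + (C1 * T) ^ (2 / n : ℝ) * |D| ^ (((n : ℝ) - 2) / n), ?_, ?_⟩
  · have : 0 ≤ (C1 * T) ^ (2 / n : ℝ) * |D| ^ (((n : ℝ) - 2) / n) := by positivity
    linarith
  intro u x V y z hy hyY hz h hlo hup
  have hz0 : 0 < z := by rw [hz]; positivity
  have hyn : 0 < y ^ n := by positivity
  have hu := h.flat.smooth
  have hn : 3 ≤ n := h.flat.hn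
  have hn3 : (3 : ℝ) ≤ n := by exact_mod_cast hn
  have hα : 0 < ((n : ℝ) - 2) / n := by
    apply div_pos <;> linarith
  obtain ⟨k₀, k₁, hk, h0, h1⟩ := hlev hy hyY hz h hlo hup
  have hcF := cont_F h
  have hA5 : GB u x (3 / 2) ⊆ GB u x 5 := GB_mono (by norm_num)
  have hmA := meas_GB hu x (3 / 2)
  have h74 : GB u x (7 / 4) ⊆ GB u x 2 := GB_mono (by norm_num)
  have h25 : GB u x 2 ⊆ GB u x 5 := GB_mono (by norm_num)
  have hzc : (z / c) ^ n ≤ z ^ n :=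
    pow_le_pow_left₀ (by positivity) (div_le_self hz0.le hc1) n
  have hzc0 : 0 < (z / c) ^ n := by positivity
  have b1 : ∀ k σ : ℝ, ev u (GB u x 2 ∩ {p | k ≤ σ * u p}) ≤ 1 / 4 * (z / c) ^ n →
      ev u (GB u x (7 / 4) ∩ {p | k ≤ σ * u p}) ≤ (z / c) ^ n ∧
      ev u (GB u x (7 / 4) ∩ {p | k ≤ σ * u p}) ≤ 1 / 2 * ev u (GB u x 2) := by
    intro k σ hk
    have h2 : ev u (GB u x (7 / 4) ∩ {p | k ≤ σ * u p}) ≤
        ev u (GB u x 2 ∩ {p | k ≤ σ * u p}) :=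
      h.ev_mono (Set.inter_subset_inter_left _ h74) (Set.inter_subset_left.trans h25)
    exact ⟨by linarith, by linarith⟩
  have c0 := hhalf hy hz h (Or.inl rfl : (1 : ℝ) = 1 ∨ (1 : ℝ) = -1) k₀
    (b1 k₀ 1 h0).1 (b1 k₀ 1 h0).2
  have c1 := hhalf hy hz h (Or.inr rfl : (-1 : ℝ) = 1 ∨ (-1 : ℝ) = -1) (-k₁)
    (b1 (-k₁) (-1) h1).1 (b1 (-k₁) (-1) h1).2
  have hT0 : 0 < T / y ^ n := by positivity
  have c2 := hhol h (Or.inl rfl : (1 : ℝ) = 1 ∨ (1 : ℝ) = -1) hA5 hmA k₁ (T / y ^ n) hT0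
  have e2 : ev u (GB u x (3 / 2) ∩ {p | k₁ ≤ 1 * u p ∧ 1 * u p ≤ k₁ + T / y ^ n}) ≤
      |D| * z ^ n := by
    refine (h.ev_mono (A' := GB u x 4) ?_ (GB_mono (by norm_num))).trans
      (hup.trans (mul_le_mul_of_nonneg_right (le_abs_self D) (by positivity)))
    exact Set.inter_subset_left.trans (GB_mono (by norm_num))
  have e3 : (C1 * (T / y ^ n)) ^ (2 / n : ℝ) = (C1 * T) ^ (2 / n : ℝ) / y ^ 2 := by
    rw [← mul_div_assoc, Real.div_rpow (by positivity) hyn.le, pow_y hn hy]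
  have c3 : (C1 * (T / y ^ n)) ^ (2 / n : ℝ) *
      ev u (GB u x (3 / 2) ∩ {p | k₁ ≤ 1 * u p ∧ 1 * u p ≤ k₁ + T / y ^ n}) ^
        (((n : ℝ) - 2) / n) ≤
      (C1 * T) ^ (2 / n : ℝ) * |D| ^ (((n : ℝ) - 2) / n) * (z ^ (n - 2) / y ^ 2) := by
    rw [e3]
    have e4 : ev u (GB u x (3 / 2) ∩ {p | k₁ ≤ 1 * u p ∧ 1 * u p ≤ k₁ + T / y ^ n}) ^
        (((n : ℝ) - 2) / n) ≤ |D| ^ (((n : ℝ) - 2) / n) * z ^ (n - 2) := by
      refine (Real.rpow_le_rpow (ev_nonneg u _) e2 hα.le).trans (le_of_eq ?_)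
      rw [Real.mul_rpow (abs_nonneg _) (by positivity), pow_z hn hz0]
    calc _ ≤ (C1 * T) ^ (2 / n : ℝ) / y ^ 2 * (|D| ^ (((n : ℝ) - 2) / n) * z ^ (n - 2)) :=
          mul_le_mul_of_nonneg_left e4 (by positivity)
      _ = _ := by ring
  have m0 : MeasurableSet (GB u x (3 / 2) ∩ {p | k₀ ≤ 1 * u p}) := hmA.inter (meas_lev hu 1 k₀)
  have m1 : MeasurableSet (GB u x (3 / 2) ∩ {p | -k₁ ≤ -1 * u p}) :=
    hmA.inter (meas_lev hu (-1) (-k₁))
  have m2 : MeasurableSet (GB u x (3 / 2) ∩ {p | k₁ ≤ 1 * u p ∧ 1 * u p ≤ k₁ + T / y ^ n}) :=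
    hmA.inter ((meas_lev hu 1 k₁).inter (meas_lev2 hu 1 _))
  have s0 : GB u x (3 / 2) ∩ {p | k₀ ≤ 1 * u p} ⊆ GB u x 5 := Set.inter_subset_left.trans hA5
  have s1 : GB u x (3 / 2) ∩ {p | -k₁ ≤ -1 * u p} ⊆ GB u x 5 :=
    Set.inter_subset_left.trans hA5
  have s2 : GB u x (3 / 2) ∩ {p | k₁ ≤ 1 * u p ∧ 1 * u p ≤ k₁ + T / y ^ n} ⊆ GB u x 5 :=
    Set.inter_subset_left.trans hA5
  have hsub : GB u x (3 / 2) ⊆ ((GB u x (3 / 2) ∩ {p | k₀ ≤ 1 * u p}) ∪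
      (GB u x (3 / 2) ∩ {p | -k₁ ≤ -1 * u p})) ∪
      (GB u x (3 / 2) ∩ {p | k₁ ≤ 1 * u p ∧ 1 * u p ≤ k₁ + T / y ^ n}) := by
    intro p hp
    by_cases g0 : k₀ ≤ 1 * u p
    · exact Or.inl (Or.inl ⟨hp, g0⟩)
    by_cases g1 : -k₁ ≤ -1 * u p
    · exact Or.inl (Or.inr ⟨hp, g1⟩)
    refine Or.inr ⟨hp, ?_, ?_⟩
    · linarith [not_le.mp g1]
    · linarith [not_le.mp g0]
  have d1 : ∫ p in GB u x (3 / 2), gs u p * Real.exp ((n - 2) * u p) ≤
      ∫ p in ((GB u x (3 / 2) ∩ {p | k₀ ≤ 1 * u p}) ∪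
      (GB u x (3 / 2) ∩ {p | -k₁ ≤ -1 * u p})) ∪
      (GB u x (3 / 2) ∩ {p | k₁ ≤ 1 * u p ∧ 1 * u p ≤ k₁ + T / y ^ n}),
        gs u p * Real.exp ((n - 2) * u p) :=
    setIntegral_mono_set (h.int hcF (Set.union_subset (Set.union_subset s0 s1) s2))
      (Eventually.of_forall F_nonneg) (Eventually.of_forall hsub)
  have d2 := union_le h hcF F_nonneg (Set.union_subset s0 s1) s2 (m0.union m1) m2
  have d3 := union_le h hcF F_nonneg s0 s1 m0 m1
  have d4 : 0 < z ^ (n - 2) / y ^ 2 := by positivity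
  calc _ ≤ 2 * (C2 * (z ^ (n - 2) / y ^ 2)) +
        (C1 * T) ^ (2 / n : ℝ) * |D| ^ (((n : ℝ) - 2) / n) * (z ^ (n - 2) / y ^ 2) := by
        linarith
    _ ≤ (1 + 2 * C2 + (C1 * T) ^ (2 / n : ℝ) * |D| ^ (((n : ℝ) - 2) / n)) *
        (z ^ (n - 2) / y ^ 2) := by linarith

end

end Pool.Agent.Helper50.CK
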