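import Pool.Agent.Helper50.CE.Basic

/-! # The last integration by parts, with explicit constants (as `CE/LastE.lean`) -/

namespace Pool.Agent.Helper50.CK

open scoped ContDiff Topology NNReal
open Pool.Agent.Helper49.Ric Pool.Agent.Helper73.HB Pool.Agent.Helper50.CF
  Pool.Agent.Helper50.CE MeasureTheory Filter

noncomputable section

variable {n : ℕ} {S V : ℝ} {u : (Fin n → ℝ) → ℝ} {x : Fin n → ℝ}

/-- continuity of the Laplacian -/
private theorem cont_lpL (hu : ContDiff ℝ ∞ u) : Continuous (lp u) := by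
  refine continuous_iff_continuousAt.mpr fun p => ?_
  unfold CF.lp
  refine tendsto_finsetSum _ fun i _ => ?_
  exact (smooth_pd (smooth_pd hu.contDiffAt i) i).continuousAt

private theorem smooth_exL {p : Fin n → ℝ} (hu : ContDiffAt ℝ ∞ u p) (a : ℝ) :
    ContDiffAt ℝ ∞ (fun q => Real.exp (a * u q)) p :=
  (contDiffAt_const.mul hu).exp

private theorem pd_exL {p : Fin n → ℝ} (hu : ContDiffAt ℝ ∞ u p) (a : ℝ) (i : Fin n) :
    pd i (fun q => Real.exp (a * u q)) p = a * Real.exp (a * u p) * pd i u p := by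
  have h1 : DifferentiableAt ℝ u p := diff_of_smooth hu
  have h2 : HasFDerivAt (fun q => Real.exp (a * u q))
      (Real.exp (a * u p) • (a • fderiv ℝ u p)) p := (h1.hasFDerivAt.const_mul a).exp
  rw [pd_eq h2.differentiableAt, h2.fderiv, pd_eq h1]
  simp only [ContinuousLinearMap.smul_apply, smul_eq_mul]
  ring

private theorem div_FL {p : Fin n → ℝ} (hu : ContDiffAt ℝ ∞ u p) (a : ℝ) :
    ∑ i, pd i (fun q => Real.exp (a * u q) * pd i u q) p
      = Real.exp (a * u p) * (lp u p + a * gs u p) := by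
  have h1 : ∀ i, pd i (fun q => Real.exp (a * u q) * pd i u q) p
      = Real.exp (a * u p) * pd i (pd i u) p + Real.exp (a * u p) * (a * pd i u p ^ 2) := by
    intro i
    rw [pd_mul (diff_of_smooth (smooth_exL hu a)) (diff_of_smooth (smooth_pd hu i)), pd_exL hu a i]
    ring
  simp only [h1, Finset.sum_add_distrib, CF.lp, gs, Finset.mul_sum, mul_add]

/-- integration by parts with a Lipschitz cutoff -/
private theorem partsL (hu : ContDiff ℝ ∞ u) {ζ : (Fin n → ℝ) → ℝ} {L : ℝ≥0}
    (hL : LipschitzWith L ζ) (hc : HasCompactSupport ζ) (a : ℝ) :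
    ∫ p, ζ p * (Real.exp (a * u p) * (lp u p + a * gs u p))
      = - ∫ p, Real.exp (a * u p) * ∑ i, pd i ζ p * pd i u p := by
  have hs : tsupport ζ ⊆ Set.univ := Set.subset_univ _
  have hF : ∀ i, ∀ p ∈ Set.univ, ContDiffAt ℝ ∞ (fun q => Real.exp (a * u q) * pd i u q) p :=
    fun i p _ => (smooth_exL hu.contDiffAt a).mul (smooth_pd hu.contDiffAt i)
  have h1 : ∀ i, ∫ p, ζ p * pd i (fun q => Real.exp (a * u q) * pd i u q) p
      = - ∫ p, pd i ζ p * (Real.exp (a * u p) * pd i u p) := fun i =>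
    ibp isOpen_univ hL hc hs (fun p hp => (hF i p hp).of_le (by exact_mod_cast le_top)) i
  have e1 : (fun p => ζ p * (Real.exp (a * u p) * (lp u p + a * gs u p)))
      = fun p => ∑ i, ζ p * pd i (fun q => Real.exp (a * u q) * pd i u q) p := by
    funext p
    rw [← Finset.mul_sum, div_FL hu.contDiffAt a]
  have e2 : (fun p => Real.exp (a * u p) * ∑ i, pd i ζ p * pd i u p)
      = fun p => ∑ i, pd i ζ p * (Real.exp (a * u p) * pd i u p) := by
    funext p
    rw [Finset.mul_sum]
    refine Finset.sum_congr rfl fun i _ => ?_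
    ring
  rw [e1, e2, integral_finsetSum, integral_finsetSum]
  · simp only [h1, Finset.sum_neg_distrib]
  · intro i _
    exact integrable_pd_mul hL hc hs (fun p hp => (hF i p hp).continuousAt) i
  · intro i _
    exact integrable_mul_of hL.continuous hc fun p _ =>
      (smooth_pd (hF i p (Set.mem_univ p)) i).continuousAt

theorem lastK (h : CoreE n S V u x) {CE V' : ℝ}
    (hE' : ∫ p in GB u x (3 / 2), gs u p * Real.exp ((n - 2) * u p) ≤ CE)
    (hV' : ev u (GB u x (3 / 2)) ≤ V') :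
    ∫ p in GB u x 1, (-(2 * ((n : ℝ) - 1)) * lp u p - ((n : ℝ) - 1) * ((n : ℝ) - 2) * gs u p)
        * Real.exp ((n - 2) * u p) ≤
      2 * ((n : ℝ) - 1) * (V' + CE) + ((n : ℝ) - 1) * ((n : ℝ) - 2) * CE := by
  have hN : (3 : ℝ) ≤ n := by exact_mod_cast h.flat.hn
  have hn1 : 0 ≤ (n : ℝ) - 1 := by linarith
  have hn2 : 0 ≤ (n : ℝ) - 2 := by linarith
  have hu : ContDiff ℝ ∞ u := h.flat.smooth
  obtain ⟨ζ, L, hL, hζc, hζ0, hζ1, hζe, hz, hζg⟩ :=
    h.cut (r₁ := 1) (r₂ := 3 / 2) (by norm_num) (by norm_num) (by norm_num)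
  have hsub1 : GB u x 1 ⊆ GB u x 5 := GB_mono (by norm_num)
  have hsub2 : GB u x (3 / 2) ⊆ GB u x 5 := GB_mono (by norm_num)
  have cw : Continuous (fun p => Real.exp (((n : ℝ) - 2) * u p)) := h.cont_e _
  have ce : Continuous (fun p => Real.exp ((n : ℝ) * u p)) := h.cont_e _
  have cgs : Continuous (gs u) := cont_gs hu
  have clp : Continuous (lp u) := cont_lpL hu
  have cQ : Continuous (fun p => (-(2 * ((n : ℝ) - 1)) * lp u p
      - ((n : ℝ) - 1) * ((n : ℝ) - 2) * gs u p) * Real.exp ((n - 2) * u p)) :=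
    ((continuous_const.mul clp).sub (continuous_const.mul cgs)).mul cw
  have cwg : Continuous (fun p => gs u p * Real.exp (((n : ℝ) - 2) * u p)) := cgs.mul cw
  have cwl : Continuous (fun p => Real.exp (((n : ℝ) - 2) * u p) *
      (lp u p + ((n : ℝ) - 2) * gs u p)) := cw.mul (clp.add (continuous_const.mul cgs))
  -- the pointwise inequality
  have hpos : ∀ p, 0 ≤ (-(2 * ((n : ℝ) - 1)) * lp u p
      - ((n : ℝ) - 1) * ((n : ℝ) - 2) * gs u p) * Real.exp ((n - 2) * u p) := by
    intro p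
    have h1 := h.flat.P1 p
    have h2 : 0 ≤ ((n : ℝ) - 1) * (-(((n : ℝ) - 2) / 2) * gs u p - lp u p) :=
      mul_nonneg hn1 (by linarith)
    have h3 := mul_nonneg h2 (Real.exp_pos ((n - 2) * u p)).le
    calc (0 : ℝ) ≤ 2 * (((n : ℝ) - 1) * (-(((n : ℝ) - 2) / 2) * gs u p - lp u p)
          * Real.exp ((n - 2) * u p)) := by linarith
      _ = _ := by ring
  have hint1 : Integrable (fun p => ζ p * ((-(2 * ((n : ℝ) - 1)) * lp u p
      - ((n : ℝ) - 1) * ((n : ℝ) - 2) * gs u p) * Real.exp ((n - 2) * u p))) :=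
    integrable_mul_of hL.continuous hζc fun p _ => cQ.continuousAt
  have hint3 : Integrable (fun p => ζ p * (gs u p * Real.exp (((n : ℝ) - 2) * u p))) :=
    integrable_mul_of hL.continuous hζc fun p _ => cwg.continuousAt
  have hint4 : Integrable (fun p => ζ p * (Real.exp (((n : ℝ) - 2) * u p)
      * (lp u p + ((n : ℝ) - 2) * gs u p))) :=
    integrable_mul_of hL.continuous hζc fun p _ => cwl.continuousAt
  have step1 : ∫ p in GB u x 1, (-(2 * ((n : ℝ) - 1)) * lp u p
      - ((n : ℝ) - 1) * ((n : ℝ) - 2) * gs u p) * Real.exp ((n - 2) * u p)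
      ≤ ∫ p, ζ p * ((-(2 * ((n : ℝ) - 1)) * lp u p
      - ((n : ℝ) - 1) * ((n : ℝ) - 2) * gs u p) * Real.exp ((n - 2) * u p)) := by
    refine le_trans ?_ (setIntegral_le_integral (s := GB u x 1) hint1 (Eventually.of_forall ?_))
    · refine setIntegral_mono_on (h.int cQ hsub1) hint1.integrableOn (meas_GB hu x 1) ?_
      intro p hp
      rw [hζe p hp, one_mul]
    · intro p
      exact mul_nonneg (hζ0 p) (hpos p)
  refine step1.trans ?_
  -- the main term
  have hmain : ∫ p, ζ p * ((-(2 * ((n : ℝ) - 1)) * lp u p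
      - ((n : ℝ) - 1) * ((n : ℝ) - 2) * gs u p) * Real.exp ((n - 2) * u p))
      = 2 * ((n : ℝ) - 1) *
          (∫ p, Real.exp (((n : ℝ) - 2) * u p) * ∑ i, pd i ζ p * pd i u p)
        + ((n : ℝ) - 1) * ((n : ℝ) - 2) *
          ∫ p, ζ p * (gs u p * Real.exp (((n : ℝ) - 2) * u p)) := by
    have h1 := partsL hu hL hζc ((n : ℝ) - 2)
    have h2 : (∫ p, Real.exp (((n : ℝ) - 2) * u p) * ∑ i, pd i ζ p * pd i u p)
        = -∫ p, ζ p * (Real.exp (((n : ℝ) - 2) * u p) * (lp u p + ((n : ℝ) - 2) * gs u p)) := by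
      rw [h1, neg_neg]
    rw [h2, ← integral_neg, ← integral_const_mul, ← integral_const_mul, ← integral_add]
    · congr 1
      funext p
      ring
    · exact hint4.neg.const_mul _
    · exact hint3.const_mul _
  rw [hmain]
  have hT2 : ∫ p, ζ p * (gs u p * Real.exp (((n : ℝ) - 2) * u p)) ≤ CE := by
    refine le_trans ?_ hE'
    have e1 : ∫ p, ζ p * (gs u p * Real.exp (((n : ℝ) - 2) * u p))
        = ∫ p in GB u x (3 / 2), ζ p * (gs u p * Real.exp (((n : ℝ) - 2) * u p)) := by
      symm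
      refine setIntegral_eq_integral_of_forall_compl_eq_zero fun p hp => ?_
      rw [hz p hp, zero_mul]
    rw [e1]
    refine setIntegral_mono_on hint3.integrableOn (h.int cwg hsub2) (meas_GB hu x _) fun p _ => ?_
    exact mul_le_of_le_one_left (mul_nonneg (gs_nonneg u p) (Real.exp_pos _).le) (hζ1 p)
  have hT1 : (∫ p, Real.exp (((n : ℝ) - 2) * u p) * ∑ i, pd i ζ p * pd i u p)
      ≤ V' + CE := by
    have hpd : ∀ p, p ∉ GB u x (3 / 2) → ∀ i, pd i ζ p = 0 := fun p hp i =>
      pd_zero_of_nonneg hζ0 (hz p hp) i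
    have e1 : (∫ p, Real.exp (((n : ℝ) - 2) * u p) * ∑ i, pd i ζ p * pd i u p)
        = ∫ p in GB u x (3 / 2), Real.exp (((n : ℝ) - 2) * u p) * ∑ i, pd i ζ p * pd i u p := by
      symm
      refine setIntegral_eq_integral_of_forall_compl_eq_zero fun p hp => ?_
      have h1 : ∀ i, pd i ζ p = 0 := hpd p hp
      simp [h1]
    have hI : Integrable (fun p => Real.exp (((n : ℝ) - 2) * u p) * ∑ i, pd i ζ p * pd i u p) := by
      have e2 : (fun p => Real.exp (((n : ℝ) - 2) * u p) * ∑ i, pd i ζ p * pd i u p)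
          = fun p => ∑ i, pd i ζ p * (Real.exp (((n : ℝ) - 2) * u p) * pd i u p) := by
        funext p
        rw [Finset.mul_sum]
        refine Finset.sum_congr rfl fun i _ => ?_
        ring
      rw [e2]
      refine integrable_finsetSum _ fun i _ => ?_
      exact integrable_pd_mul hL hζc (Set.subset_univ _) (fun p _ =>
        ((smooth_exL hu.contDiffAt _).mul (smooth_pd hu.contDiffAt i)).continuousAt) i
    rw [e1]
    have hg : ∀ᵐ p, Real.exp (((n : ℝ) - 2) * u p) * ∑ i, pd i ζ p * pd i u p ≤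
        Real.exp ((n : ℝ) * u p) + gs u p * Real.exp (((n : ℝ) - 2) * u p) := by
      filter_upwards [hζg] with p hp
      have h1 : ∑ i, pd i ζ p * pd i u p ≤ gr ζ p * gr u p :=
        (le_abs_self _).trans (abs_inner_le ζ u p)
      have h2 : gr ζ p ≤ 2 * Real.exp (u p) := by
        unfold gr
        refine Real.sqrt_le_iff.mpr ⟨by positivity, hp.trans (le_of_eq ?_)⟩
        rw [mul_pow, ← Real.exp_nat_mul]
        norm_num
        ring
      have h3 : gr ζ p * gr u p ≤ Real.exp (u p) ^ 2 + gs u p := by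
        have h4 : gr ζ p * gr u p ≤ 2 * Real.exp (u p) * gr u p :=
          mul_le_mul_of_nonneg_right h2 (gr_nonneg u p)
        have h5 := gr_sq u p
        nlinarith [sq_nonneg (Real.exp (u p) - gr u p)]
      have h6 : Real.exp ((n : ℝ) * u p) =
          Real.exp (((n : ℝ) - 2) * u p) * Real.exp (u p) ^ 2 := by
        rw [← Real.exp_nat_mul, ← Real.exp_add]
        congr 1
        push_cast
        ring
      rw [h6]
      calc Real.exp (((n : ℝ) - 2) * u p) * ∑ i, pd i ζ p * pd i u p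
          ≤ Real.exp (((n : ℝ) - 2) * u p) * (Real.exp (u p) ^ 2 + gs u p) :=
            mul_le_mul_of_nonneg_left (h1.trans h3) (Real.exp_pos _).le
        _ = _ := by ring
    have hIe : IntegrableOn (fun p => Real.exp ((n : ℝ) * u p)) (GB u x (3 / 2)) := h.int ce hsub2
    have hIg : IntegrableOn (fun p => gs u p * Real.exp (((n : ℝ) - 2) * u p)) (GB u x (3 / 2)) :=
      h.int cwg hsub2
    calc ∫ p in GB u x (3 / 2), Real.exp (((n : ℝ) - 2) * u p) * ∑ i, pd i ζ p * pd i u p
        ≤ ∫ p in GB u x (3 / 2), (Real.exp ((n : ℝ) * u p)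
          + gs u p * Real.exp (((n : ℝ) - 2) * u p)) :=
          setIntegral_mono_ae hI.integrableOn (hIe.add hIg) hg
      _ = (∫ p in GB u x (3 / 2), Real.exp ((n : ℝ) * u p))
          + ∫ p in GB u x (3 / 2), gs u p * Real.exp (((n : ℝ) - 2) * u p) :=
          integral_add hIe hIg
      _ ≤ V' + CE := by
          exact add_le_add hV' hE'
  have hT1' : 2 * ((n : ℝ) - 1) *
      (∫ p, Real.exp (((n : ℝ) - 2) * u p) * ∑ i, pd i ζ p * pd i u p)
      ≤ 2 * ((n : ℝ) - 1) * (V' + CE) :=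
    mul_le_mul_of_nonneg_left hT1 (by linarith)
  have hT2' : ((n : ℝ) - 1) * ((n : ℝ) - 2) *
      (∫ p, ζ p * (gs u p * Real.exp (((n : ℝ) - 2) * u p)))
      ≤ ((n : ℝ) - 1) * ((n : ℝ) - 2) * CE :=
    mul_le_mul_of_nonneg_left hT2 (mul_nonneg hn1 hn2)
  linarith

end

end Pool.Agent.Helper50.CK
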