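import Pool.Agent.Helper50.CK.Energy
import Pool.Agent.Helper50.CK.Last
import Pool.Agent.Helper50.CE.Main

/-! # Assembly, without a lower bound for the volume: geodesic unit balls -/

namespace Pool.Agent.Helper50.CK

open scoped ContDiff Topology NNReal
open Pool.Agent.Helper49.Ric Pool.Agent.Helper73.HB Pool.Agent.Helper50.CF
  Pool.Agent.Helper50.CE MeasureTheory Filter

noncomputable section

variable {n : ℕ}

theorem ev_pos {u : (Fin n → ℝ) → ℝ} (hu : ContDiff ℝ ∞ u) (x : Fin n → ℝ) {s t : ℝ}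
    (hs : 0 < s) (hst : s ≤ t) (hK : ∃ K : Set (Fin n → ℝ), IsCompact K ∧ GB u x t ⊆ K) :
    0 < ev u (GB u x s) := by
  obtain ⟨K, hK1, hK2⟩ := hK
  have hsub : GB u x s ⊆ K := (GB_mono hst).trans hK2
  have hint : IntegrableOn (fun p => Real.exp (n * u p)) (GB u x s) :=
    int_on (cont_exp hu n) hK1 hsub
  unfold ev
  rw [setIntegral_pos_iff_support_of_nonneg_ae
    (Eventually.of_forall fun p => (Real.exp_pos _).le) hint]
  have h1 : Function.support (fun p => Real.exp (n * u p)) ∩ GB u x s = GB u x s := by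
    refine Set.inter_eq_right.mpr fun p _ => ?_
    exact (Real.exp_pos _).ne'
  rw [h1]
  exact (isOpen_GB hu x s).measure_pos volume ⟨x, mem_gball_self (Set.mem_univ x) hs⟩

theorem mainK (hn : 3 ≤ n) (S D V : ℝ) : ∃ C : ℝ,
    ∀ (u : (Fin n → ℝ) → ℝ) (x : Fin n → ℝ), ContDiff ℝ ∞ u →
      (∀ p w : Fin n → ℝ, 0 ≤ ∑ i, ∑ j, ricci (conf u) i j p * w i * w j) →
      (∃ K : Set (Fin n → ℝ), IsCompact K ∧ gball Set.univ (conf u) x 5 ⊆ K) →
      gvol (conf u) (gball Set.univ (conf u) x 4) ≤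
        D * gvol (conf u) (gball Set.univ (conf u) x 1) →
      gvol (conf u) (gball Set.univ (conf u) x 4) ≤ V →
      SobPoinPair (conf u) (gball Set.univ (conf u) x 2) (gball Set.univ (conf u) x 4)
        (S * gvol (conf u) (gball Set.univ (conf u) x 4) ^ (-(2 / n) : ℝ)) →
      ∫ p in gball Set.univ (conf u) x 1, scal (conf u) p * Real.sqrt (conf u p).det ≤
        C * gvol (conf u) (gball Set.univ (conf u) x 1) ^ ((n - 3) / (n - 1) : ℝ) := by
  set V' : ℝ := max V 1 with hV'
  have hV'1 : 1 ≤ V' := le_max_right _ _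
  have hn3 : (3 : ℝ) ≤ n := by exact_mod_cast hn
  have hn0 : (0 : ℝ) < n := by linarith
  obtain ⟨C, hC1, H⟩ := exists_energyK n (max S 1 * V') D V'
  refine ⟨2 * ((n : ℝ) - 1) * (|D| * V' ^ 2 + C) + ((n : ℝ) - 1) * ((n : ℝ) - 2) * C, ?_⟩
  intro u x hu hR hK hdoub hup hS
  have hRic : ∀ p, ∀ w : Fin n → ℝ, -(0 : ℝ) * ∑ i, ∑ j, conf u p i j * w i * w j ≤
      ∑ i, ∑ j, ricci (conf u) i j p * w i * w j := by
    intro p w
    rw [neg_zero, zero_mul]
    exact hR p w
  have hflat : Flat n u := by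
    refine ⟨hn, hu, fun p => ?_, fun p => ?_⟩
    · have := ric_P1 hn hu.contDiffAt le_rfl (hRic p)
      simpa using this
    · have := ric_P2 hn hu.contDiffAt le_rfl (hRic p)
      simpa using this
  simp only [gvol_eq] at hdoub hup hS ⊢
  set v : ℝ := ev u (gball Set.univ (conf u) x 1) with hv
  have hv0 : 0 < v := ev_pos hu x one_pos (by norm_num : (1 : ℝ) ≤ 5) hK
  have hint : ∀ s : ℝ, s ≤ 5 → IntegrableOn (fun p => Real.exp (n * u p)) (GB u x s) := by
    intro s hs
    obtain ⟨K, hKc, hKs⟩ := hK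
    exact int_on (cont_exp hu n) hKc ((GB_mono hs).trans hKs)
  have hmono : ∀ s t : ℝ, s ≤ t → t ≤ 5 → ev u (GB u x s) ≤ ev u (GB u x t) := fun s t hs ht =>
    setIntegral_mono_set (hint t ht) (Eventually.of_forall fun _ => (Real.exp_pos _).le)
      (Eventually.of_forall (GB_mono hs))
  have h14 : v ≤ ev u (GB u x 4) := hmono 1 4 (by norm_num) (by norm_num)
  have hvV : v ≤ V' := h14.trans (hup.trans (le_max_left _ _))
  -- `y` and `z`
  have hn1 : (0 : ℝ) < (n : ℝ) - 1 := by linarith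
  set y : ℝ := v ^ (1 / (n * (n - 1)) : ℝ) with hy
  have hy0 : 0 < y := Real.rpow_pos_of_pos hv0 _
  set z : ℝ := y ^ (n - 1) with hz
  have hz0 : 0 < z := by positivity
  have hzn : z ^ n = v := by
    rw [hz, hy, ← pow_mul, ← Real.rpow_natCast, ← Real.rpow_mul hv0.le]
    have : (1 / (n * (n - 1)) : ℝ) * (((n - 1) * n : ℕ) : ℝ) = 1 := by
      rw [Nat.cast_mul, Nat.cast_sub (by omega)]
      push_cast
      field_simp
    rw [this, Real.rpow_one]
  have hyn : y ^ n ≤ V' := by
    have e1 : y ^ n = v ^ (1 / (n - 1) : ℝ) := by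
      rw [hy, ← Real.rpow_natCast, ← Real.rpow_mul hv0.le]
      congr 1
      field_simp
    rw [e1]
    calc v ^ (1 / (n - 1) : ℝ) ≤ V' ^ (1 / (n - 1) : ℝ) :=
          Real.rpow_le_rpow hv0.le hvV (by positivity)
      _ ≤ V' ^ (1 : ℝ) := Real.rpow_le_rpow_of_exponent_le hV'1 (by
          rw [div_le_one hn1]
          linarith)
      _ = V' := Real.rpow_one _
  have hz2 : z ^ 2 ≤ V' := by
    have e1 : z ^ 2 = v ^ (2 / n : ℝ) := by
      rw [← hzn, ← Real.rpow_natCast z n, ← Real.rpow_mul hz0.le]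
      have : (n : ℝ) * (2 / n) = (2 : ℕ) := by
        push_cast
        field_simp
      rw [this, Real.rpow_natCast]
    rw [e1]
    calc v ^ (2 / n : ℝ) ≤ V' ^ (2 / n : ℝ) :=
          Real.rpow_le_rpow hv0.le hvV (by positivity)
      _ ≤ V' ^ (1 : ℝ) := Real.rpow_le_rpow_of_exponent_le hV'1 (by
          rw [div_le_one hn0]
          linarith)
      _ = V' := Real.rpow_one _
  have hyz : y ^ n = y * z := by
    rw [hz, ← pow_succ']
    congr 1
    omega
  have hmax : 1 ≤ max S 1 := le_max_right _ _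
  have hcore : CoreE n (max S 1 * V' / z ^ 2) (max (max V (1 / v)) 1) u x := by
    refine ⟨hflat, ?_, le_max_right _ _, hK, ?_, ?_, ?_⟩
    · rw [le_div_iff₀ (by positivity), one_mul]
      calc z ^ 2 ≤ 1 * V' := by rw [one_mul]; exact hz2
        _ ≤ max S 1 * V' := mul_le_mul_of_nonneg_right hmax (by linarith)
    · refine le_trans ?_ (hmono 1 2 (by norm_num) (by norm_num))
      have h1 : 1 / v ≤ max (max V (1 / v)) 1 := (le_max_right _ _).trans (le_max_left _ _)
      have h2 : 0 < 1 / v := by positivity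
      rw [div_le_iff₀ (lt_of_lt_of_le h2 h1)]
      calc (1 : ℝ) = v * (1 / v) := by field_simp
        _ ≤ v * max (max V (1 / v)) 1 := mul_le_mul_of_nonneg_left h1 hv0.le
    · exact hup.trans ((le_max_left _ _).trans (le_max_left _ _))
    · intro f L hf hc
      obtain ⟨c, hc'⟩ := hS f L hf hc
      refine ⟨c, ?_⟩
      simp only [conf_ip] at hc'
      simp only [dens_conf] at hc'
      refine hc'.trans (mul_le_mul_of_nonneg_right ?_ ?_)
      · have h4 : 0 < ev u (GB u x 4) := lt_of_lt_of_le hv0 h14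
        have e1 : ev u (GB u x 4) ^ (-(2 / n) : ℝ) ≤ 1 / z ^ 2 := by
          have e2 : (z ^ n) ^ (-(2 / n) : ℝ) = 1 / z ^ 2 := by
            rw [← Real.rpow_natCast z n, ← Real.rpow_mul hz0.le]
            have : (n : ℝ) * (-(2 / n)) = -((2 : ℕ) : ℝ) := by
              push_cast
              field_simp
            rw [this, Real.rpow_neg hz0.le, Real.rpow_natCast, one_div]
          rw [← e2, hzn]
          exact Real.rpow_le_rpow_of_nonpos hv0 h14 (by
            rw [neg_nonpos]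
            positivity)
        calc S * ev u (GB u x 4) ^ (-(2 / n) : ℝ)
            ≤ max S 1 * ev u (GB u x 4) ^ (-(2 / n) : ℝ) :=
              mul_le_mul_of_nonneg_right (le_max_left _ _) (Real.rpow_nonneg h4.le _)
          _ ≤ max S 1 * (1 / z ^ 2) := mul_le_mul_of_nonneg_left e1 (by linarith)
          _ = max S 1 * 1 / z ^ 2 := by ring
          _ ≤ max S 1 * V' / z ^ 2 := by
              refine div_le_div_of_nonneg_right ?_ (by positivity)
              exact mul_le_mul_of_nonneg_left hV'1 (by linarith)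
      · exact integral_nonneg fun p => mul_nonneg (gs_nonneg f p) (Real.exp_pos _).le
  have hE := H hy0 hyn hz hcore (by rw [hzn]; exact hmono 1 2 (by norm_num) (by norm_num))
    (by rw [hzn]; exact hdoub)
  have h32 : ev u (GB u x (3 / 2)) ≤ |D| * z ^ n := by
    rw [hzn]
    exact (hmono (3 / 2) 4 (by norm_num) (by norm_num)).trans
      (hdoub.trans (mul_le_mul_of_nonneg_right (le_abs_self D) hv0.le))
  have h1 := lastK hcore hE h32
  have e1 : ∀ p, scal (conf u) p * Real.sqrt (conf u p).det =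
      (-(2 * ((n : ℝ) - 1)) * lp u p - ((n : ℝ) - 1) * ((n : ℝ) - 2) * gs u p)
        * Real.exp ((n - 2) * u p) := fun p => scal_conf hu.contDiffAt
  simp only [e1]
  refine h1.trans ?_
  set F : ℝ := z ^ (n - 2) / y ^ 2 with hF
  have hF0 : 0 < F := by positivity
  have eF : v ^ ((n - 3) / (n - 1) : ℝ) = F := by
    have e2 : F = y ^ (n * (n - 3)) := by
      rw [hF, hz, div_eq_iff (by positivity), ← pow_mul, ← pow_add]
      congr 1
      obtain ⟨m, rfl⟩ : ∃ m, n = m + 3 := ⟨n - 3, by omega⟩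
      simp only [Nat.add_sub_cancel]
      have : m + 3 - 1 = m + 2 := by omega
      rw [this]
      have : m + 3 - 2 = m + 1 := by omega
      rw [this]
      ring
    rw [e2, hy, ← Real.rpow_natCast, ← Real.rpow_mul hv0.le]
    congr 1
    rw [Nat.cast_mul, Nat.cast_sub (by omega)]
    push_cast
    field_simp
  rw [eF]
  have e3 : z ^ n = F * (y ^ n) ^ 2 := by
    rw [hyz, hF]
    have : z ^ n = z ^ (n - 2) * z ^ 2 := by
      rw [← pow_add]
      congr 1
      omega
    rw [this]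
    field_simp
  have e4 : z ^ n ≤ F * V' ^ 2 := by
    rw [e3]
    exact mul_le_mul_of_nonneg_left (pow_le_pow_left₀ (by positivity) hyn 2) hF0.le
  have e5 : |D| * z ^ n ≤ |D| * V' ^ 2 * F := by
    calc |D| * z ^ n ≤ |D| * (F * V' ^ 2) := mul_le_mul_of_nonneg_left e4 (abs_nonneg _)
      _ = _ := by ring
  have e6 : 2 * ((n : ℝ) - 1) * (|D| * z ^ n + C * F) ≤
      2 * ((n : ℝ) - 1) * (|D| * V' ^ 2 * F + C * F) :=
    mul_le_mul_of_nonneg_left (by linarith) (by linarith)
  calc _ ≤ 2 * ((n : ℝ) - 1) * (|D| * V' ^ 2 * F + C * F)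
        + ((n : ℝ) - 1) * ((n : ℝ) - 2) * (C * F) := by linarith
    _ = _ := by ring

end

end Pool.Agent.Helper50.CK
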