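import Pool.Agent.Helper50.CK.Main
import Pool.Agent.Helper50.CG.Affine

/-! # Geodesic balls of arbitrary radius, by scaling the metric -/

namespace Pool.Agent.Helper50.CK

open scoped ContDiff Topology NNReal
open Pool.Agent.Helper49.Ric Pool.Agent.Helper73.HB Pool.Agent.Helper50.CF
  Pool.Agent.Helper50.CE MeasureTheory Filter

noncomputable section

variable {n : ℕ} {u : (Fin n → ℝ) → ℝ} {r : ℝ}

theorem exp_sub_log (hr : 0 < r) (m : ℕ) (t : ℝ) :
    Real.exp (m * (t - Real.log r)) = (r ^ m)⁻¹ * Real.exp (m * t) := by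
  rw [mul_sub, Real.exp_sub, Real.exp_nat_mul (Real.log r) m, Real.exp_log hr]
  field_simp

/-- the scaled metric -/
theorem conf_sub (hr : 0 < r) :
    conf (fun p => u p - Real.log r) = fun p => (r ^ 2)⁻¹ • conf u p := by
  funext p
  have h := exp_sub_log hr 2 (u p)
  push_cast at h
  unfold conf
  simp only
  rw [h, smul_smul]

theorem sqrt_det_sub (hr : 0 < r) (p : Fin n → ℝ) :
    Real.sqrt (conf (fun p => u p - Real.log r) p).det =
      (r ^ n)⁻¹ * Real.sqrt (conf u p).det := by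
  rw [dens_conf, dens_conf]
  exact exp_sub_log hr n (u p)

theorem length_sub (hr : 0 < r) (γ : ℝ → Fin n → ℝ) :
    curveLength (conf (fun p => u p - Real.log r)) γ = r⁻¹ * curveLength (conf u) γ := by
  unfold curveLength
  rw [conf_sub hr, ← intervalIntegral.integral_const_mul]
  congr 1
  funext t
  have e : ∑ i, ∑ j, ((r ^ 2)⁻¹ • conf u (γ t)) i j * deriv γ t i * deriv γ t j =
      (r⁻¹) ^ 2 * ∑ i, ∑ j, conf u (γ t) i j * deriv γ t i * deriv γ t j := by
    rw [Finset.mul_sum]
    refine Finset.sum_congr rfl fun i _ => ?_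
    rw [Finset.mul_sum]
    refine Finset.sum_congr rfl fun j _ => ?_
    rw [Matrix.smul_apply, smul_eq_mul, inv_pow]
    ring
  simp only at e ⊢
  rw [e, Real.sqrt_mul (sq_nonneg _), Real.sqrt_sq (inv_pos.mpr hr).le]

theorem gball_sub (hr : 0 < r) (x : Fin n → ℝ) (s : ℝ) :
    gball Set.univ (conf (fun p => u p - Real.log r)) x s =
      gball Set.univ (conf u) x (s * r) := by
  unfold gball
  ext p
  simp only [Set.mem_ofPred_eq, length_sub hr]
  have e : ∀ t : ℝ, r⁻¹ * t < s ↔ t < s * r := fun t => by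
    rw [inv_mul_lt_iff₀ hr, mul_comm]
  simp only [e]

theorem gvol_sub (hr : 0 < r) (A : Set (Fin n → ℝ)) :
    gvol (conf (fun p => u p - Real.log r)) A = gvol (conf u) A / r ^ n := by
  unfold gvol
  simp only [sqrt_det_sub hr]
  rw [integral_const_mul, mul_comm, div_eq_mul_inv]

theorem aff_id (x : Fin n → ℝ) : CG.aff (0 : Fin n → ℝ) 1 x = x := by
  unfold CG.aff
  rw [one_smul, zero_add]

theorem ricci_sub (hr : 0 < r) (i j : Fin n) (p : Fin n → ℝ) :
    ricci (conf (fun p => u p - Real.log r)) i j p = ricci (conf u) i j p := by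
  have hc : (r ^ 2)⁻¹ ≠ 0 := by positivity
  have h := CG.ricci_aff (0 : Fin n → ℝ) 1 hc (conf u) p i j
  simp only [aff_id] at h
  rw [conf_sub hr, h]
  ring

theorem scal_sub (hr : 0 < r) (p : Fin n → ℝ) :
    scal (conf (fun p => u p - Real.log r)) p = r ^ 2 * scal (conf u) p := by
  have hc : (r ^ 2)⁻¹ ≠ 0 := by positivity
  have h := CG.scal_aff (0 : Fin n → ℝ) 1 hc (conf u) p
  simp only [aff_id] at h
  rw [conf_sub hr, h, inv_inv]
  ring

theorem sobPoin_sub (hn : 3 ≤ n) (hr : 0 < r) {A A' : Set (Fin n → ℝ)} {S : ℝ}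
    (h : SobPoinPair (conf u) A A' S) :
    SobPoinPair (conf (fun p => u p - Real.log r)) A A' S := by
  have hn3 : (3 : ℝ) ≤ n := by exact_mod_cast hn
  have hn0 : (0 : ℝ) < n := by linarith
  intro f L hf hc
  obtain ⟨c, hc'⟩ := h f L hf hc
  refine ⟨c, ?_⟩
  have hrn : 0 < (r ^ n)⁻¹ := by positivity
  have e1 : ∫ p in A, |f p - c| ^ (2 * n / (n - 2) : ℝ) *
      Real.sqrt (conf (fun p => u p - Real.log r) p).det =
      (r ^ n)⁻¹ * ∫ p in A, |f p - c| ^ (2 * n / (n - 2) : ℝ) * Real.sqrt (conf u p).det := by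
    rw [← integral_const_mul]
    congr 1
    funext p
    rw [sqrt_det_sub hr]
    ring
  have e2 : ∫ p in A', (∑ i, ∑ j, (conf (fun p => u p - Real.log r) p)⁻¹ i j * pd i f p *
      pd j f p) * Real.sqrt (conf (fun p => u p - Real.log r) p).det =
      (r ^ (n - 2))⁻¹ * ∫ p in A', (∑ i, ∑ j, (conf u p)⁻¹ i j * pd i f p *
        pd j f p) * Real.sqrt (conf u p).det := by
    rw [← integral_const_mul]
    congr 1
    funext p
    rw [conf_ip, conf_ip]
    have h3 := exp_sub_log hr (n - 2) (u p)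
    rw [Nat.cast_sub (by omega)] at h3
    push_cast at h3
    rw [h3]
    ring
  rw [e1, e2, Real.mul_rpow hrn.le (integral_nonneg fun p => by positivity)]
  have e3 : ((r ^ n)⁻¹) ^ ((n - 2) / n : ℝ) = (r ^ (n - 2))⁻¹ := by
    rw [Real.inv_rpow (by positivity), ← Real.rpow_natCast, ← Real.rpow_mul hr.le]
    have : (n : ℝ) * ((n - 2) / n) = ((n - 2 : ℕ) : ℝ) := by
      rw [Nat.cast_sub (by omega)]
      push_cast
      field_simp
    rw [this, Real.rpow_natCast]
  rw [e3]
  calc _ ≤ (r ^ (n - 2))⁻¹ * (S * ∫ p in A', (∑ i, ∑ j, (conf u p)⁻¹ i j * pd i f p *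
        pd j f p) * Real.sqrt (conf u p).det) :=
        mul_le_mul_of_nonneg_left hc' (by positivity)
    _ = _ := by ring

theorem mainR (hn : 3 ≤ n) (S D V : ℝ) : ∃ C : ℝ,
    ∀ (u : (Fin n → ℝ) → ℝ) (x : Fin n → ℝ) (r : ℝ), ContDiff ℝ ∞ u → 0 < r →
      (∀ p w : Fin n → ℝ, 0 ≤ ∑ i, ∑ j, ricci (conf u) i j p * w i * w j) →
      (∃ K : Set (Fin n → ℝ), IsCompact K ∧ gball Set.univ (conf u) x (5 * r) ⊆ K) →
      gvol (conf u) (gball Set.univ (conf u) x (4 * r)) ≤
        D * gvol (conf u) (gball Set.univ (conf u) x r) →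
      gvol (conf u) (gball Set.univ (conf u) x (4 * r)) ≤ V * r ^ n →
      SobPoinPair (conf u) (gball Set.univ (conf u) x (2 * r))
        (gball Set.univ (conf u) x (4 * r))
        (S * (gvol (conf u) (gball Set.univ (conf u) x (4 * r)) / r ^ n) ^ (-(2 / n) : ℝ)) →
      ∫ p in gball Set.univ (conf u) x r, scal (conf u) p * Real.sqrt (conf u p).det ≤
        C * r ^ (n - 2) *
          (gvol (conf u) (gball Set.univ (conf u) x r) / r ^ n) ^ ((n - 3) / (n - 1) : ℝ) := by
  obtain ⟨C, H⟩ := mainK hn S D V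
  refine ⟨C, fun u x r hu hr hR hK hdoub hup hS => ?_⟩
  have hrn : 0 < r ^ n := by positivity
  have hv : ContDiff ℝ ∞ (fun p => u p - Real.log r) := hu.sub contDiff_const
  have h := H (fun p => u p - Real.log r) x hv
    (fun p w => by simp only [ricci_sub hr]; exact hR p w)
    (by rw [gball_sub hr]; exact hK)
    (by
      rw [gball_sub hr, gball_sub hr, gvol_sub hr, gvol_sub hr, one_mul, ← mul_div_assoc]
      exact div_le_div_of_nonneg_right hdoub hrn.le)
    (by
      rw [gball_sub hr, gvol_sub hr, div_le_iff₀ hrn]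
      exact hup)
    (by
      rw [gball_sub hr, gball_sub hr, gvol_sub hr]
      exact sobPoin_sub hn hr hS)
  rw [gball_sub hr, gvol_sub hr, one_mul] at h
  have e1 : ∫ p in gball Set.univ (conf u) x r, scal (conf (fun p => u p - Real.log r)) p *
      Real.sqrt (conf (fun p => u p - Real.log r) p).det =
      (r ^ (n - 2))⁻¹ * ∫ p in gball Set.univ (conf u) x r,
        scal (conf u) p * Real.sqrt (conf u p).det := by
    rw [← integral_const_mul]
    congr 1
    funext p
    rw [scal_sub hr, sqrt_det_sub hr]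
    have e2 : r ^ n = r ^ (n - 2) * r ^ 2 := by
      rw [← pow_add]
      congr 1
      omega
    rw [e2]
    field_simp
  rw [e1, inv_mul_le_iff₀ (by positivity)] at h
  refine h.trans (le_of_eq ?_)
  ring

end

end Pool.Agent.Helper50.CK
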